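import Pool.Agent.Lib.MP_0087d5_lc.NEGQ.Gad

/-!
# The state matrix as a matrix of size `n`
-/

set_option autoImplicit false

namespace Pool.Agent.NEGQ

open Finset Pool.Agent.NEG Pool.Agent.NEGS

section Big

variable {n : ℕ} {V R : Type} [DecidableEq R]

/-- the matrix `m` on the first part, the identity on the second part -/
def big {α : Type} (tt ff : α) (e : Fin n ≃ V ⊕ R) (m : V × V → α) (a : Fin n × Fin n) : α :=
  match e a.1, e a.2 with
  | .inl x, .inl y => m (x, y)
  | .inl _, .inr _ => ff
  | .inr _, .inl _ => ff
  | .inr x, .inr y => if x = y then tt else ff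

theorem big_map {α β : Type} (g : α → β) (tt ff : α) (e : Fin n ≃ V ⊕ R) (m : V × V → α)
    (a : Fin n × Fin n) : g (big tt ff e m a) = big (g tt) (g ff) e (fun x => g (m x)) a := by
  unfold big
  rcases e a.1 with x | x <;> rcases e a.2 with y | y
  · rfl
  · rfl
  · rfl
  · simp only
    split_ifs <;> rfl

theorem big_inl {α : Type} (tt ff : α) (e : Fin n ≃ V ⊕ R) (m : V × V → α) (a b : Fin n) (x y : V)
    (ha : e a = .inl x) (hb : e b = .inl y) : big tt ff e m (a, b) = m (x, y) := by
  unfold big
  simp only [ha, hb]

theorem big_pm (e : Fin n ≃ V ⊕ R) [Finite V] (m : V × V → Bool) :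
    BPM n (big true false e m) ↔ PMx m := by
  constructor
  · rintro ⟨M, hM⟩
    have key : ∀ x : V, ∃ y : V, e (M (e.symm (.inl x))) = .inl y ∧ m (x, y) = true := by
      intro x
      have h1 := hM (e.symm (.inl x))
      unfold big at h1
      simp only [Equiv.apply_symm_apply] at h1
      cases h : e (M (e.symm (.inl x))) with
      | inl y =>
        rw [h] at h1
        exact ⟨y, rfl, h1⟩
      | inr y =>
        rw [h] at h1
        exact absurd h1 Bool.false_ne_true
    choose f hf hfm using key
    have hinj : Function.Injective f := by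
      intro x y hxy
      have h1 : e (M (e.symm (.inl x))) = e (M (e.symm (.inl y))) := by rw [hf, hf, hxy]
      exact Sum.inl.inj (e.symm.injective (M.injective (e.injective h1)))
    exact ⟨Equiv.ofBijective f (Finite.injective_iff_bijective.mp hinj), hfm⟩
  · rintro ⟨s, hs⟩
    refine ⟨(e.trans (Equiv.sumCongr s (Equiv.refl R))).trans e.symm, fun a => ?_⟩
    unfold big
    cases h : e a with
    | inl x =>
      simp only [Equiv.trans_apply, h, Equiv.sumCongr_apply, Sum.map_inl, Equiv.apply_symm_apply]
      exact hs x
    | inr x =>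
      simp only [Equiv.trans_apply, h, Equiv.sumCongr_apply, Sum.map_inr, Equiv.apply_symm_apply,
        Equiv.refl_apply, if_true]

theorem big_mono (e : Fin n ≃ V ⊕ R) (m m' : V × V → Bool) (h : ∀ x, m x = true → m' x = true)
    (a : Fin n × Fin n) (ha : big true false e m a = true) : big true false e m' a = true := by
  unfold big at ha ⊢
  rcases h1 : e a.1 with x | x <;> rcases h2 : e a.2 with y | y
  · simp only [h1, h2] at ha
    exact h _ ha
  · simp only [h1, h2] at ha
    exact absurd ha Bool.false_ne_true
  · simp only [h1, h2] at ha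
    exact absurd ha Bool.false_ne_true
  · simp only [h1, h2] at ha
    exact ha

end Big

variable {q K L : ℕ}

/-- monotonicity of the state in the contents -/
theorem gmat_mono (k : ℕ) (w w' : ℕ → Fin q × Fin q → Bool) (v v' : Fin K × Fin q → Fin q × Fin q → Bool)
    (hw : ∀ j e, w j e = true → w' j e = true) (hv : ∀ r e, v r e = true → v' r e = true)
    (x : Vx q K L × Vx q K L) (h : gmat true false k w v x = true) : gmat true false k w' v' x = true := by
  rcases x with ⟨x | x, y | y⟩
  · simp only [gmat] at h ⊢
    by_cases h1 : (x.1 : ℕ) < y.1 + k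
    · rw [if_pos h1]
    · rw [if_neg h1] at h ⊢
      by_cases h2 : (x.1 : ℕ) = y.1 + k
      · rw [if_pos h2] at h ⊢
        exact hw _ _ h
      · rw [if_neg h2] at h
        exact absurd h Bool.false_ne_true
  · exact h
  · exact h
  · simp only [gmat] at h ⊢
    by_cases h1 : x.1 = y.1
    · rw [if_pos h1] at h ⊢
      exact hv _ _ h
    · rw [if_neg h1] at h
      exact absurd h Bool.false_ne_true

/-- the next phase is above the end of a phase -/
theorem gmat_phase (k : ℕ) (w w' : ℕ → Fin q × Fin q → Bool) (v : Fin K × Fin q → Fin q × Fin q → Bool)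
    (x : Vx q K L × Vx q K L) (h : gmat true false k w v x = true) : gmat true false (k + 1) w' v x = true := by
  rcases x with ⟨x | x, y | y⟩
  · simp only [gmat] at h ⊢
    by_cases h1 : (x.1 : ℕ) < y.1 + (k + 1)
    · rw [if_pos h1]
    · rw [if_neg (by omega), if_neg (by omega)] at h
      exact absurd h Bool.false_ne_true
  · exact h
  · exact h
  · exact h

end Pool.Agent.NEGQ
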