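import Pool.Agent.Lib.MP_0087d5_lc.NEGS.Main

/-!
# The staircase with reservoirs

Blocks `A_i`, `B_j` of `q` vertices (`i, j < L`) and reservoirs `S_ρ`, `T_ρ` of `q` vertices
(`ρ = (r, a)`, `r < K`, `a < q`). `A_i` and `B_j` are completely joined for `i < j + k`, the window
`(A_{j+k}, B_j)` has the content `w j`, the reservoir `ρ` has the content `v ρ`.
-/

set_option autoImplicit false

namespace Pool.Agent.NEGQ

open Finset Pool.Agent.NEG Pool.Agent.NEGS

/-- the vertices of one side -/
abbrev Vx (q K L : ℕ) : Type := (Fin L × Fin q) ⊕ ((Fin K × Fin q) × Fin q)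

variable {q K L : ℕ}

/-- the state matrix, over any type of values with `tt` for true and `ff` for false -/
def gmat {α : Type} (tt ff : α) (k : ℕ) (w : ℕ → Fin q × Fin q → α)
    (v : Fin K × Fin q → Fin q × Fin q → α) : Vx q K L × Vx q K L → α
  | (.inl x, .inl y) => if (x.1 : ℕ) < y.1 + k then tt
      else if (x.1 : ℕ) = y.1 + k then w y.1 (x.2, y.2) else ff
  | (.inl x, .inr _) => if (x.1 : ℕ) < K then tt else ff
  | (.inr _, .inl y) => if L ≤ y.1 + K then tt else ff
  | (.inr x, .inr y) => if x.1 = y.1 then v x.1 (x.2, y.2) else ff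

/-- a change of the type of values -/
theorem gmat_map {α β : Type} (g : α → β) (tt ff : α) (k : ℕ) (w : ℕ → Fin q × Fin q → α)
    (v : Fin K × Fin q → Fin q × Fin q → α) (e : Vx q K L × Vx q K L) :
    g (gmat tt ff k w v e) = gmat (g tt) (g ff) k (fun j x => g (w j x)) (fun r x => g (v r x)) e := by
  rcases e with ⟨x | x, y | y⟩
  · simp only [gmat]
    split_ifs <;> rfl
  · simp only [gmat]
    split_ifs <;> rfl
  · simp only [gmat]
    split_ifs <;> rfl
  · simp only [gmat]
    split_ifs <;> rfl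

/-- a perfect matching of a square matrix -/
def PMx {V : Type} (m : V × V → Bool) : Prop := ∃ s : Equiv.Perm V, ∀ x, m (x, s x) = true

/-- a matching which misses one vertex on each side -/
def Near (z : Fin q × Fin q → Bool) : Prop :=
  ∃ (s : Fin q) (p : Equiv.Perm (Fin q)), ∀ x, x ≠ s → z (x, p x) = true

/-- a Hall obstruction -/
def Hall (z : Fin q × Fin q → Bool) : Prop :=
  ∃ Z N : Finset (Fin q), (∀ x ∈ Z, ∀ y, z (x, y) = true → y ∈ N) ∧ N.card + 1 ≤ Z.card

/-- **perfect matchings of the windows give one of the state** -/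
theorem pm_of (k : ℕ) (hkK : k ≤ K) (hKL : K ≤ L) (w : ℕ → Fin q × Fin q → Bool)
    (v : Fin K × Fin q → Fin q × Fin q → Bool) (hw : ∀ j, j + k < L → PMx (w j))
    (hv : ∀ r : Fin K × Fin q, k ≤ (r.1 : ℕ) → PMx (v r)) (hv' : ∀ r : Fin K × Fin q, (r.1 : ℕ) < k → Near (v r)) :
    PMx (gmat (q := q) (K := K) (L := L) true false k w v) := by
  classical
  have hr : ∀ r : Fin K × Fin q, ∃ (s : Fin q) (p : Equiv.Perm (Fin q)),
      ∀ x, ((r.1 : ℕ) < k → x ≠ s) → v r (x, p x) = true := by
    intro r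
    by_cases h : (r.1 : ℕ) < k
    · obtain ⟨s, p, hp⟩ := hv' r h
      exact ⟨s, p, fun x hx => hp x (hx h)⟩
    · obtain ⟨p, hp⟩ := hv r (not_lt.1 h)
      exact ⟨r.2, p, fun x _ => hp x⟩
  choose s p hp using hr
  have hw' : ∀ j : ℕ, ∃ p : Equiv.Perm (Fin q), j + k < L → ∀ x, w j (x, p x) = true := by
    intro j
    by_cases h : j + k < L
    · obtain ⟨p, hp⟩ := hw j h
      exact ⟨p, fun _ => hp⟩
    · exact ⟨1, fun h' => absurd h' h⟩
  choose σ hσ using hw'
  have hlt : ∀ i : Fin L, k ≤ (i : ℕ) → (i : ℕ) - k < L := fun i _ => by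
    have := i.2
    omega
  have hlt2 : ∀ r : Fin K, (r : ℕ) < k → L - k + r < L := fun r _ => by omega
  let f : Vx q K L → Vx q K L := fun x => match x with
    | .inl x => if h : (x.1 : ℕ) < k then .inr ((⟨x.1, lt_of_lt_of_le h hkK⟩, x.2),
        p (⟨x.1, lt_of_lt_of_le h hkK⟩, x.2) (s (⟨x.1, lt_of_lt_of_le h hkK⟩, x.2)))
        else .inl (⟨(x.1 : ℕ) - k, hlt x.1 (not_lt.1 h)⟩, σ ((x.1 : ℕ) - k) x.2)
    | .inr x => if h : (x.1.1 : ℕ) < k ∧ x.2 = s x.1 then .inl (⟨L - k + x.1.1, hlt2 x.1.1 h.1⟩, x.1.2)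
        else .inr (x.1, p x.1 x.2)
  have hf1 : ∀ x : Fin L × Fin q, ∀ h : (x.1 : ℕ) < k, f (.inl x) = .inr ((⟨x.1, lt_of_lt_of_le h hkK⟩, x.2),
      p (⟨x.1, lt_of_lt_of_le h hkK⟩, x.2) (s (⟨x.1, lt_of_lt_of_le h hkK⟩, x.2))) := by
    intro x h
    simp only [f]
    rw [dif_pos h]
  have hf2 : ∀ x : Fin L × Fin q, ∀ h : ¬ (x.1 : ℕ) < k, f (.inl x) =
      .inl (⟨(x.1 : ℕ) - k, hlt x.1 (not_lt.1 h)⟩, σ ((x.1 : ℕ) - k) x.2) := by
    intro x h
    simp only [f]
    rw [dif_neg h]
  have hf3 : ∀ x : (Fin K × Fin q) × Fin q, ∀ h : (x.1.1 : ℕ) < k ∧ x.2 = s x.1, f (.inr x) =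
      .inl (⟨L - k + x.1.1, hlt2 x.1.1 h.1⟩, x.1.2) := by
    intro x h
    simp only [f]
    rw [dif_pos h]
  have hf4 : ∀ x : (Fin K × Fin q) × Fin q, ∀ h : ¬ ((x.1.1 : ℕ) < k ∧ x.2 = s x.1), f (.inr x) =
      .inr (x.1, p x.1 x.2) := by
    intro x h
    simp only [f]
    rw [dif_neg h]
  have hinj : Function.Injective f := by
    intro x y hxy
    rcases x with x | x <;> rcases y with y | y
    · by_cases h1 : (x.1 : ℕ) < k <;> by_cases h2 : (y.1 : ℕ) < k
      · rw [hf1 x h1, hf1 y h2] at hxy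
        have h3 := (Prod.mk.inj (Sum.inr.inj hxy)).1
        have h4 := Prod.mk.inj h3
        have h5 : x.1 = y.1 := Fin.ext (Fin.mk.inj h4.1)
        rw [Prod.ext h5 h4.2]
      · rw [hf1 x h1, hf2 y h2] at hxy
        exact absurd hxy Sum.inr_ne_inl
      · rw [hf2 x h1, hf1 y h2] at hxy
        exact absurd hxy Sum.inl_ne_inr
      · rw [hf2 x h1, hf2 y h2] at hxy
        have h3 := Prod.mk.inj (Sum.inl.inj hxy)
        have h4 := Fin.mk.inj h3.1
        have h5 : (x.1 : ℕ) = y.1 := by omega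
        have h6 := h3.2
        rw [h4] at h6
        rw [Prod.ext (Fin.ext h5) ((σ _).injective h6)]
    · by_cases h1 : (x.1 : ℕ) < k <;> by_cases h2 : (y.1.1 : ℕ) < k ∧ y.2 = s y.1
      · rw [hf1 x h1, hf3 y h2] at hxy
        exact absurd hxy Sum.inr_ne_inl
      · rw [hf1 x h1, hf4 y h2] at hxy
        exfalso
        have h3 := Prod.mk.inj (Sum.inr.inj hxy)
        have h4 := h3.2
        rw [h3.1] at h4
        have h5 := (p y.1).injective h4
        refine h2 ⟨?_, h5.symm⟩
        rw [← h3.1]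
        exact h1
      · rw [hf2 x h1, hf3 y h2] at hxy
        exfalso
        have h3 := Fin.mk.inj (Prod.mk.inj (Sum.inl.inj hxy)).1
        have := x.1.2
        omega
      · rw [hf2 x h1, hf4 y h2] at hxy
        exact absurd hxy Sum.inl_ne_inr
    · by_cases h1 : (x.1.1 : ℕ) < k ∧ x.2 = s x.1 <;> by_cases h2 : (y.1 : ℕ) < k
      · rw [hf3 x h1, hf1 y h2] at hxy
        exact absurd hxy Sum.inl_ne_inr
      · rw [hf3 x h1, hf2 y h2] at hxy
        exfalso
        have h3 := Fin.mk.inj (Prod.mk.inj (Sum.inl.inj hxy)).1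
        have := y.1.2
        omega
      · rw [hf4 x h1, hf1 y h2] at hxy
        exfalso
        have h3 := Prod.mk.inj (Sum.inr.inj hxy)
        have h4 := h3.2
        rw [← h3.1] at h4
        have h5 := (p x.1).injective h4
        refine h1 ⟨?_, h5⟩
        rw [h3.1]
        exact h2
      · rw [hf4 x h1, hf2 y h2] at hxy
        exact absurd hxy Sum.inr_ne_inl
    · by_cases h1 : (x.1.1 : ℕ) < k ∧ x.2 = s x.1 <;> by_cases h2 : (y.1.1 : ℕ) < k ∧ y.2 = s y.1
      · rw [hf3 x h1, hf3 y h2] at hxy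
        have h3 := Prod.mk.inj (Sum.inl.inj hxy)
        have h4 := Fin.mk.inj h3.1
        have h5 : x.1.1 = y.1.1 := Fin.ext (by omega)
        have h6 : x.1 = y.1 := Prod.ext h5 h3.2
        have h7 : x.2 = y.2 := by rw [h1.2, h2.2, h6]
        rw [Prod.ext h6 h7]
      · rw [hf3 x h1, hf4 y h2] at hxy
        exact absurd hxy Sum.inl_ne_inr
      · rw [hf4 x h1, hf3 y h2] at hxy
        exact absurd hxy Sum.inr_ne_inl
      · rw [hf4 x h1, hf4 y h2] at hxy
        have h3 := Prod.mk.inj (Sum.inr.inj hxy)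
        have h4 := h3.2
        rw [h3.1] at h4
        rw [Prod.ext h3.1 ((p y.1).injective h4)]
  refine ⟨Equiv.ofBijective f (Finite.injective_iff_bijective.mp hinj), fun x => ?_⟩
  change gmat true false k w v (x, f x) = true
  rcases x with x | x
  · by_cases h1 : (x.1 : ℕ) < k
    · rw [hf1 x h1]
      simp only [gmat]
      rw [if_pos (lt_of_lt_of_le h1 hkK)]
    · rw [hf2 x h1]
      simp only [gmat]
      have h2 := x.1.2
      rw [if_neg (by omega), if_pos (by omega)]
      exact hσ _ (by omega) _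
  · by_cases h1 : (x.1.1 : ℕ) < k ∧ x.2 = s x.1
    · rw [hf3 x h1]
      simp only [gmat]
      rw [if_pos (by omega)]
    · rw [hf4 x h1]
      simp only [gmat]
      rw [if_pos trivial]
      exact hp x.1 x.2 (fun h2 h3 => h1 ⟨h2, h3⟩)

/-- the blocks from `a` on and the parts `Z r` of the first reservoirs -/
def hset (a : ℕ) (Z : Fin K × Fin q → Finset (Fin q)) (k : ℕ) : Finset (Vx q K L) :=
  ((univ.filter fun i : Fin L => ¬ (i : ℕ) < a) ×ˢ (univ : Finset (Fin q))).disjSum
    ((univ.filter fun r : Fin K × Fin q => (r.1 : ℕ) < k).biUnion fun r => (Z r).image fun p => (r, p))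

theorem inl_mem_hset (a : ℕ) (Z : Fin K × Fin q → Finset (Fin q)) (k : ℕ) (x : Fin L × Fin q) :
    (.inl x : Vx q K L) ∈ hset a Z k ↔ a ≤ (x.1 : ℕ) := by
  unfold hset
  rw [inl_mem_disjSum, mem_product, mem_filter]
  simp

theorem inr_mem_hset (a : ℕ) (Z : Fin K × Fin q → Finset (Fin q)) (k : ℕ) (x : (Fin K × Fin q) × Fin q) :
    (.inr x : Vx q K L) ∈ hset a Z k ↔ (x.1.1 : ℕ) < k ∧ x.2 ∈ Z x.1 := by
  unfold hset
  rw [inr_mem_disjSum, mem_biUnion]
  constructor
  · rintro ⟨r, hr, h⟩
    obtain ⟨p, hp, rfl⟩ := mem_image.1 h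
    exact ⟨(mem_filter.1 hr).2, hp⟩
  · rintro ⟨h1, h2⟩
    exact ⟨x.1, mem_filter.2 ⟨mem_univ _, h1⟩, mem_image.2 ⟨x.2, h2, rfl⟩⟩

theorem card_hset (a : ℕ) (Z : Fin K × Fin q → Finset (Fin q)) (k : ℕ) :
    (hset (L := L) a Z k).card =
      (L - a) * q + ∑ r ∈ univ.filter (fun r : Fin K × Fin q => (r.1 : ℕ) < k), (Z r).card := by
  unfold hset
  rw [card_disjSum, card_product, card_univ, Fintype.card_fin]
  congr 1
  · congr 1
    have h2 : (univ.filter fun i : Fin L => (i : ℕ) < a).card = min L a := Fin.card_filter_val_lt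
    have h3 := card_filter_add_card_filter_not (s := (univ : Finset (Fin L))) fun i => (i : ℕ) < a
    rw [card_univ, Fintype.card_fin] at h3
    omega
  · rw [card_biUnion]
    · refine sum_congr rfl fun r _ => ?_
      exact card_image_of_injective _ fun p p' h => (Prod.mk.inj h).2
    · intro r _ r' _ hne
      change Disjoint _ _
      rw [Finset.disjoint_left]
      intro x hx hx'
      obtain ⟨p, _, rfl⟩ := mem_image.1 hx
      obtain ⟨p', _, h⟩ := mem_image.1 hx'
      exact hne (Prod.mk.inj h).1.symm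

/-- **a perfect matching of the state gives one of the critical window** -/
theorem pm_window (k j0 : ℕ) (hkK : k ≤ K) (hj1 : K ≤ j0) (hj2 : j0 + K < L)
    (w : ℕ → Fin q × Fin q → Bool) (v : Fin K × Fin q → Fin q × Fin q → Bool)
    (hv : ∀ r : Fin K × Fin q, (r.1 : ℕ) < k → Hall (v r))
    (h : PMx (gmat (q := q) (K := K) (L := L) true false k w v)) : PMx (w j0) := by
  classical
  obtain ⟨M, hM⟩ := h
  have hr : ∀ r : Fin K × Fin q, ∃ Z N : Finset (Fin q), (r.1 : ℕ) < k →
      (∀ x ∈ Z, ∀ y, v r (x, y) = true → y ∈ N) ∧ N.card + 1 ≤ Z.card := by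
    intro r
    by_cases h : (r.1 : ℕ) < k
    · obtain ⟨Z, N, h1, h2⟩ := hv r h
      exact ⟨Z, N, fun _ => ⟨h1, h2⟩⟩
    · exact ⟨∅, ∅, fun h' => absurd h' h⟩
  choose Z N hZN using hr
  set ZS : Finset (Vx q K L) := hset (j0 + k) Z k with hZS
  set NS : Finset (Vx q K L) := hset (j0 + 1) N k with hNS
  have hcZ : ZS.card = (L - (j0 + k)) * q + ∑ r ∈ univ.filter (fun r : Fin K × Fin q => (r.1 : ℕ) < k), (Z r).card :=
    card_hset (j0 + k) Z k
  have hcN : NS.card = (L - (j0 + 1)) * q + ∑ r ∈ univ.filter (fun r : Fin K × Fin q => (r.1 : ℕ) < k), (N r).card :=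
    card_hset (j0 + 1) N k
  have hsum : ∑ r ∈ univ.filter (fun r : Fin K × Fin q => (r.1 : ℕ) < k), (N r).card + k * q ≤
      ∑ r ∈ univ.filter (fun r : Fin K × Fin q => (r.1 : ℕ) < k), (Z r).card := by
    have h1 : (univ.filter (fun r : Fin K × Fin q => (r.1 : ℕ) < k)).card = k * q := by
      have h2 : (univ.filter (fun r : Fin K × Fin q => (r.1 : ℕ) < k)) =
          (univ.filter fun i : Fin K => (i : ℕ) < k) ×ˢ (univ : Finset (Fin q)) := by
        ext x
        simp
      rw [h2, card_product, card_univ, Fintype.card_fin, Fin.card_filter_val_lt, min_eq_right hkK]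
    calc ∑ r ∈ univ.filter (fun r : Fin K × Fin q => (r.1 : ℕ) < k), (N r).card + k * q
        = ∑ r ∈ univ.filter (fun r : Fin K × Fin q => (r.1 : ℕ) < k), ((N r).card + 1) := by
          rw [sum_add_distrib, sum_const, h1, smul_eq_mul, mul_one]
      _ ≤ _ := sum_le_sum fun r hr => (hZN r (mem_filter.1 hr).2).2
  -- the vertices of `ZS` which are matched outside of `NS`
  set Bd : Finset (Vx q K L) := ZS.filter fun x => M x ∉ NS with hBd
  have hBc : q ≤ Bd.card := by
    have h1 := card_filter_add_card_filter_not (s := ZS) fun x => M x ∈ NS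
    have h2 : (ZS.filter fun x => M x ∈ NS).card ≤ NS.card := by
      refine card_le_card_of_injOn M (fun x hx => (mem_filter.1 hx).2) M.injective.injOn
    have h3 : (L - (j0 + k)) * q + k * q = (L - (j0 + 1)) * q + q := by
      rw [← Nat.add_mul, ← Nat.succ_mul]
      congr 1
      omega
    change q ≤ (ZS.filter fun x => ¬ M x ∈ NS).card
    omega
  have hBw : ∀ x ∈ Bd, ∃ (p p' : Fin q) (hi : j0 + k < L) (hj : j0 < L), x = .inl (⟨j0 + k, hi⟩, p) ∧
      M x = .inl (⟨j0, hj⟩, p') ∧ w j0 (p, p') = true := by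
    intro x hx
    obtain ⟨hx3, hx4⟩ := mem_filter.1 hx
    have hx5 := hM x
    rw [hZS] at hx3
    rw [hNS] at hx4
    rcases x with x | x
    · rw [inl_mem_hset] at hx3
      cases hy : M (.inl x) with
      | inl y =>
        rw [hy] at hx4 hx5
        rw [inl_mem_hset] at hx4
        simp only [gmat] at hx5
        rw [if_neg (by omega)] at hx5
        by_cases h6 : (x.1 : ℕ) = y.1 + k
        · rw [if_pos h6] at hx5
          have h7 : (y.1 : ℕ) = j0 := by omega
          have h8 : (x.1 : ℕ) = j0 + k := by omega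
          refine ⟨x.2, y.2, h8 ▸ x.1.2, h7 ▸ y.1.2, ?_, ?_, ?_⟩
          · exact congrArg Sum.inl (Prod.ext (Fin.ext h8) rfl)
          · exact congrArg Sum.inl (Prod.ext (Fin.ext h7) rfl)
          · rw [h7] at hx5
            exact hx5
        · rw [if_neg h6] at hx5
          exact absurd hx5 Bool.false_ne_true
      | inr y =>
        rw [hy] at hx5
        simp only [gmat] at hx5
        rw [if_neg (by omega)] at hx5
        exact absurd hx5 Bool.false_ne_true
    · rw [inr_mem_hset] at hx3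
      cases hy : M (.inr x) with
      | inl y =>
        exfalso
        rw [hy] at hx4 hx5
        rw [inl_mem_hset] at hx4
        simp only [gmat] at hx5
        rw [if_neg (by omega)] at hx5
        exact Bool.false_ne_true hx5
      | inr y =>
        exfalso
        rw [hy] at hx4 hx5
        rw [inr_mem_hset] at hx4
        simp only [gmat] at hx5
        by_cases h6 : x.1 = y.1
        · rw [if_pos h6] at hx5
          refine hx4 ⟨h6 ▸ hx3.1, ?_⟩
          rw [← h6]
          exact (hZN x.1 hx3.1).1 x.2 hx3.2 y.2 hx5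
        · rw [if_neg h6] at hx5
          exact Bool.false_ne_true hx5
  have hi : j0 + k < L := by omega
  have hj : j0 < L := by omega
  -- all vertices of the block are matched through the window
  have hall : ∀ p : Fin q, (.inl (⟨j0 + k, hi⟩, p) : Vx q K L) ∈ Bd := by
    have h1 : Bd ⊆ univ.image (fun p : Fin q => (.inl (⟨j0 + k, hi⟩, p) : Vx q K L)) := by
      intro x hx
      obtain ⟨p, p', _, _, h2, _⟩ := hBw x hx
      exact mem_image.2 ⟨p, mem_univ _, h2.symm⟩
    have h2 : (univ.image (fun p : Fin q => (.inl (⟨j0 + k, hi⟩, p) : Vx q K L))).card ≤ Bd.card := by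
      refine card_image_le.trans ?_
      rw [card_univ, Fintype.card_fin]
      exact hBc
    have h3 := eq_of_subset_of_card_le h1 h2
    intro p
    rw [h3]
    exact mem_image_of_mem _ (mem_univ p)
  have hex : ∀ p : Fin q, ∃ p' : Fin q, M (.inl (⟨j0 + k, hi⟩, p)) = .inl (⟨j0, hj⟩, p') ∧ w j0 (p, p') = true := by
    intro p
    obtain ⟨p1, p', _, _, h2, h3, h4⟩ := hBw _ (hall p)
    have h5 : p = p1 := (Prod.mk.inj (Sum.inl.inj h2)).2
    exact ⟨p', h3, h5 ▸ h4⟩
  choose f hf hfw using hex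
  have hinj : Function.Injective f := by
    intro a b hab
    have h1 : M (.inl (⟨j0 + k, hi⟩, a)) = M (.inl (⟨j0 + k, hi⟩, b)) := by
      rw [hf a, hf b, hab]
    exact (Prod.mk.inj (Sum.inl.inj (M.injective h1))).2
  exact ⟨Equiv.ofBijective f (Finite.injective_iff_bijective.mp hinj), hfw⟩

/-- the union of the monochromatic edges of an odd 2-colouring lies in a matrix with a Hall
obstruction and a matching which misses one vertex -/
theorem exists_z (c : Fin q ⊕ Fin q → Bool) (hc : par c = 1) :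
    ∃ z : Fin q × Fin q → Bool, (∀ e, yin c e = true → z e = true) ∧ Hall z ∧ Near z := by
  classical
  -- a colour with more vertices on the left side
  have hcard : ∀ f : Fin q → Bool, (univ.filter fun p => f p = true).card +
      (univ.filter fun p => f p = false).card = q := by
    intro f
    have h1 := card_filter_add_card_filter_not (s := (univ : Finset (Fin q))) fun p => f p = true
    rw [card_univ, Fintype.card_fin] at h1
    have h2 : (univ.filter fun p => ¬ f p = true) = univ.filter fun p => f p = false :=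
      filter_congr fun p _ => by simp
    rw [h2] at h1
    exact h1
  have hb : ∃ b : Bool, (univ.filter fun p => c (.inr p) = b).card < (univ.filter fun p => c (.inl p) = b).card := by
    by_contra hcon
    push Not at hcon
    have h1 := hcon true
    have h2 := hcon false
    have h3 := hcard fun p => c (.inl p)
    have h4 := hcard fun p => c (.inr p)
    have h5 : (univ.filter fun p => c (.inl p) = true).card = (univ.filter fun p => c (.inr p) = true).card := by
      omega
    have h6 : par c = 0 := by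
      unfold par
      rw [Fintype.sum_sum_type, sum_boole, sum_boole, h5, ← two_mul]
      have h7 : (2 : ZMod 2) = 0 := by decide
      rw [h7, zero_mul]
    rw [h6] at hc
    exact absurd hc (by decide)
  obtain ⟨b, hb⟩ := hb
  set N : Finset (Fin q) := univ.filter fun p => c (.inr p) = b with hN
  obtain ⟨Z, hZ1, hZ2⟩ := exists_subset_card_eq (n := N.card + 1) (Nat.succ_le_of_lt hb)
  refine ⟨fun e => decide (e.1 ∉ Z ∨ e.2 ∈ N), fun e he => ?_, ⟨Z, N, ?_, hZ2.ge⟩, ?_⟩
  · rw [decide_eq_true_eq]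
    by_cases h : e.1 ∈ Z
    · right
      have h1 := (mem_filter.1 (hZ1 h)).2
      unfold yin at he
      rw [decide_eq_true_eq] at he
      rw [hN, mem_filter]
      exact ⟨mem_univ _, he ▸ h1⟩
    · exact Or.inl h
  · intro x hx y hxy
    rw [decide_eq_true_eq] at hxy
    exact hxy.resolve_left (fun h => h hx)
  · obtain ⟨s, hs⟩ := card_pos.1 (show 0 < Z.card by omega)
    have h1 : (Z.erase s).card = N.card := by
      rw [card_erase_of_mem hs]
      omega
    refine ⟨s, (Finset.equivOfCardEq h1).extendSubtype, fun x hx => ?_⟩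
    rw [decide_eq_true_eq]
    by_cases h : x ∈ Z
    · right
      have h2 : x ∈ Z.erase s := mem_erase.2 ⟨hx, h⟩
      exact (Finset.equivOfCardEq h1).extendSubtype_mem x h2
    · exact Or.inl h

end Pool.Agent.NEGQ
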