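import Pool.Agent.Lib.MP_0087d5_lc.NEGS.Main

/-!
The nodes of a forced circuit are at least as often one on the odd colourings as on the
perfect matchings, up to the errors of the approximation.
-/

namespace Pool.Agent.NEGQ

open Pool.Agent.NEG Pool.Agent.NEGS

section Approx

variable {V P N : Type} [Fintype P] [Fintype N] {px : P → V → Bool} {py : N → V → Bool}
  {ep en : ℝ} (S : Sys V P N px py ep en) {J G : Type}

/-- comparison of the positive and the negative tests on the nodes of a forced circuit, from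
the comparison for the approximators; `O` is a set of negative tests -/
theorem node_po_gen [Fintype G] (C : Circuit J G) (l : Lev C) (z : G → Bool) (f : J → V ⊕ Bool)
    (nd : (J ⊕ Bool) ⊕ G) (O : Set N) (α β : ℝ) (hα : 0 ≤ α) (hβ : 0 ≤ β)
    (hall : α * Fintype.card P ≤ β * (O.ncard : ℝ))
    (hpo : ∀ a : S.A, (∀ w, S.ev a w = true) ∨
      α * (({p : P | S.ev a (px p) = true} : Set P).ncard : ℝ) ≤
        β * (({p : N | p ∈ O ∧ S.ev a (py p) = true} : Set N).ncard : ℝ)) :
    α * (({p : P | nv C l z nd (pl f (px p)) = true} : Set P).ncard : ℝ) ≤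
      β * (({p : N | p ∈ O ∧ nv C l z nd (pl f (py p)) = true} : Set N).ncard : ℝ) +
        Fintype.card G * (α * ep + β * en) := by
  classical
  obtain ⟨a, E, F, hE, hF, h1, h2⟩ := along S C l z f l.top
  have hcE : (((⋃ g, E g : Set P)).ncard : ℝ) ≤ Fintype.card G * ep := by
    calc (((⋃ g, E g : Set P)).ncard : ℝ) ≤ ((∑ g, (E g).ncard : ℕ) : ℝ) := by
          exact_mod_cast Set.ncard_iUnion_le_of_fintype E
      _ = ∑ g, ((E g).ncard : ℝ) := by push_cast; rfl
      _ ≤ ∑ _g : G, ep := Finset.sum_le_sum (fun g _ => hE g)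
      _ = Fintype.card G * ep := by
          rw [Finset.sum_const, Finset.card_univ, nsmul_eq_mul]
  have hcF : (((⋃ g, F g : Set N)).ncard : ℝ) ≤ Fintype.card G * en := by
    calc (((⋃ g, F g : Set N)).ncard : ℝ) ≤ ((∑ g, (F g).ncard : ℕ) : ℝ) := by
          exact_mod_cast Set.ncard_iUnion_le_of_fintype F
      _ = ∑ g, ((F g).ncard : ℝ) := by push_cast; rfl
      _ ≤ ∑ _g : G, en := Finset.sum_le_sum (fun g _ => hF g)
      _ = Fintype.card G * en := by
          rw [Finset.sum_const, Finset.card_univ, nsmul_eq_mul]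
  have hup : ∀ p, p ∉ (⋃ g, E g : Set P) → nv C l z nd (pl f (px p)) = true →
      S.ev (an S f a nd) (px p) = true := by
    intro p hp hv
    rw [Set.mem_iUnion] at hp
    push Not at hp
    cases nd with
    | inl w =>
        rw [an_inl S f a w (fval C l z (pl f (px p)))]
        exact hv
    | inr g => exact h1 p (fun g _ => hp g) g (l.le_top g) hv
  have hdown : ∀ p, p ∉ (⋃ g, F g : Set N) → S.ev (an S f a nd) (py p) = true →
      nv C l z nd (pl f (py p)) = true := by
    intro p hp hv
    rw [Set.mem_iUnion] at hp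
    push Not at hp
    cases nd with
    | inl w =>
        rw [an_inl S f a w (fval C l z (pl f (py p)))] at hv
        exact hv
    | inr g => exact h2 p (fun g _ => hp g) g (l.le_top g) hv
  -- the negative tests in `O`
  have hN : (({p : N | p ∈ O ∧ S.ev (an S f a nd) (py p) = true} : Set N).ncard : ℝ) ≤
      (({p : N | p ∈ O ∧ nv C l z nd (pl f (py p)) = true} : Set N).ncard : ℝ) +
        Fintype.card G * en := by
    have hsub : ({p : N | p ∈ O ∧ S.ev (an S f a nd) (py p) = true} : Set N) ⊆
        {p : N | p ∈ O ∧ nv C l z nd (pl f (py p)) = true} ∪ ⋃ g, F g := by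
      intro p hp
      by_cases hpF : p ∈ (⋃ g, F g : Set N)
      · exact Or.inr hpF
      · exact Or.inl ⟨hp.1, hdown p hpF hp.2⟩
    calc (({p : N | p ∈ O ∧ S.ev (an S f a nd) (py p) = true} : Set N).ncard : ℝ)
        ≤ (({p : N | p ∈ O ∧ nv C l z nd (pl f (py p)) = true} ∪ ⋃ g, F g : Set N).ncard : ℝ) := by
          exact_mod_cast Set.ncard_le_ncard hsub (Set.toFinite _)
      _ ≤ (({p : N | p ∈ O ∧ nv C l z nd (pl f (py p)) = true} : Set N).ncard : ℝ) +
          ((⋃ g, F g : Set N).ncard : ℝ) := by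
          exact_mod_cast Set.ncard_union_le _ _
      _ ≤ _ := by linarith
  have hP : (({p : P | nv C l z nd (pl f (px p)) = true} : Set P).ncard : ℝ) ≤
      (({p : P | S.ev (an S f a nd) (px p) = true} : Set P).ncard : ℝ) +
        Fintype.card G * ep := by
    have hsub : ({p : P | nv C l z nd (pl f (px p)) = true} : Set P) ⊆
        {p : P | S.ev (an S f a nd) (px p) = true} ∪ ⋃ g, E g := by
      intro p hp
      by_cases hpE : p ∈ (⋃ g, E g : Set P)
      · exact Or.inr hpE
      · exact Or.inl (hup p hpE hp)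
    calc (({p : P | nv C l z nd (pl f (px p)) = true} : Set P).ncard : ℝ)
        ≤ (({p : P | S.ev (an S f a nd) (px p) = true} ∪ ⋃ g, E g : Set P).ncard : ℝ) := by
          exact_mod_cast Set.ncard_le_ncard hsub (Set.toFinite _)
      _ ≤ (({p : P | S.ev (an S f a nd) (px p) = true} : Set P).ncard : ℝ) +
          ((⋃ g, E g : Set P).ncard : ℝ) := by
          exact_mod_cast Set.ncard_union_le _ _
      _ ≤ _ := by linarith
  have hmid : α * (({p : P | S.ev (an S f a nd) (px p) = true} : Set P).ncard : ℝ) ≤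
      β * (({p : N | p ∈ O ∧ S.ev (an S f a nd) (py p) = true} : Set N).ncard : ℝ) := by
    rcases hpo (an S f a nd) with h | h
    · have e1 : ({p : P | S.ev (an S f a nd) (px p) = true} : Set P) = Set.univ := by
        ext p
        simp only [Set.mem_ofPred_eq, Set.mem_univ, iff_true]
        exact h _
      have e2 : ({p : N | p ∈ O ∧ S.ev (an S f a nd) (py p) = true} : Set N) = O := by
        ext p
        simp only [Set.mem_ofPred_eq]
        exact ⟨fun h => h.1, fun hp => ⟨hp, h _⟩⟩
      rw [e1, e2, Set.ncard_univ, Nat.card_eq_fintype_card]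
      exact hall
    · exact h
  calc α * (({p : P | nv C l z nd (pl f (px p)) = true} : Set P).ncard : ℝ)
      ≤ α * ((({p : P | S.ev (an S f a nd) (px p) = true} : Set P).ncard : ℝ) +
        Fintype.card G * ep) := mul_le_mul_of_nonneg_left hP hα
    _ = α * (({p : P | S.ev (an S f a nd) (px p) = true} : Set P).ncard : ℝ) +
        Fintype.card G * (α * ep) := by ring
    _ ≤ β * (({p : N | p ∈ O ∧ S.ev (an S f a nd) (py p) = true} : Set N).ncard : ℝ) +
        Fintype.card G * (α * ep) := by linarith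
    _ ≤ β * ((({p : N | p ∈ O ∧ nv C l z nd (pl f (py p)) = true} : Set N).ncard : ℝ) +
        Fintype.card G * en) + Fintype.card G * (α * ep) := by
          have := mul_le_mul_of_nonneg_left hN hβ
          linarith
    _ = _ := by ring

/-- the two cases for a node of a forced circuit: either the comparison of the positive tests
with the negative tests of `O` (weights `α` and `β`), or almost all negative tests are one -/
theorem node_alt_gen [Fintype G] (C : Circuit J G) (l : Lev C) (z : G → Bool) (f : J → V ⊕ Bool)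
    (nd : (J ⊕ Bool) ⊕ G) (O : Set N) (α β : ℝ) (hα : 0 ≤ α) (hβ : 0 ≤ β)
    (hpo : ∀ a : S.A, (∀ w, S.ev a w = true) ∨
      α * (({p : P | S.ev a (px p) = true} : Set P).ncard : ℝ) ≤
        β * (({p : N | p ∈ O ∧ S.ev a (py p) = true} : Set N).ncard : ℝ)) :
    α * (({p : P | nv C l z nd (pl f (px p)) = true} : Set P).ncard : ℝ) ≤
      β * (({p : N | p ∈ O ∧ nv C l z nd (pl f (py p)) = true} : Set N).ncard : ℝ) +
        Fintype.card G * (α * ep + β * en) ∨
    (({p : N | nv C l z nd (pl f (py p)) = false} : Set N).ncard : ℝ) ≤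
        Fintype.card G * en := by
  classical
  obtain ⟨a, E, F, hE, hF, h1, h2⟩ := along S C l z f l.top
  have hcE : (((⋃ g, E g : Set P)).ncard : ℝ) ≤ Fintype.card G * ep := by
    calc (((⋃ g, E g : Set P)).ncard : ℝ) ≤ ((∑ g, (E g).ncard : ℕ) : ℝ) := by
          exact_mod_cast Set.ncard_iUnion_le_of_fintype E
      _ = ∑ g, ((E g).ncard : ℝ) := by push_cast; rfl
      _ ≤ ∑ _g : G, ep := Finset.sum_le_sum (fun g _ => hE g)
      _ = Fintype.card G * ep := by
          rw [Finset.sum_const, Finset.card_univ, nsmul_eq_mul]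
  have hcF : (((⋃ g, F g : Set N)).ncard : ℝ) ≤ Fintype.card G * en := by
    calc (((⋃ g, F g : Set N)).ncard : ℝ) ≤ ((∑ g, (F g).ncard : ℕ) : ℝ) := by
          exact_mod_cast Set.ncard_iUnion_le_of_fintype F
      _ = ∑ g, ((F g).ncard : ℝ) := by push_cast; rfl
      _ ≤ ∑ _g : G, en := Finset.sum_le_sum (fun g _ => hF g)
      _ = Fintype.card G * en := by
          rw [Finset.sum_const, Finset.card_univ, nsmul_eq_mul]
  have hup : ∀ p, p ∉ (⋃ g, E g : Set P) → nv C l z nd (pl f (px p)) = true →
      S.ev (an S f a nd) (px p) = true := by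
    intro p hp hv
    rw [Set.mem_iUnion] at hp
    push Not at hp
    cases nd with
    | inl w =>
        rw [an_inl S f a w (fval C l z (pl f (px p)))]
        exact hv
    | inr g => exact h1 p (fun g _ => hp g) g (l.le_top g) hv
  have hdown : ∀ p, p ∉ (⋃ g, F g : Set N) → S.ev (an S f a nd) (py p) = true →
      nv C l z nd (pl f (py p)) = true := by
    intro p hp hv
    rw [Set.mem_iUnion] at hp
    push Not at hp
    cases nd with
    | inl w =>
        rw [an_inl S f a w (fval C l z (pl f (py p)))] at hv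
        exact hv
    | inr g => exact h2 p (fun g _ => hp g) g (l.le_top g) hv
  rcases hpo (an S f a nd) with h | h
  · right
    have hsub : ({p : N | nv C l z nd (pl f (py p)) = false} : Set N) ⊆ ⋃ g, F g := by
      intro p hp
      by_contra hpF
      have := hdown p hpF (h (py p))
      simp only [Set.mem_ofPred_eq] at hp
      rw [hp] at this
      exact absurd this (by decide)
    calc (({p : N | nv C l z nd (pl f (py p)) = false} : Set N).ncard : ℝ)
        ≤ ((⋃ g, F g : Set N).ncard : ℝ) := by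
          exact_mod_cast Set.ncard_le_ncard hsub (Set.toFinite _)
      _ ≤ Fintype.card G * en := hcF
  · left
    have hN : (({p : N | p ∈ O ∧ S.ev (an S f a nd) (py p) = true} : Set N).ncard : ℝ) ≤
        (({p : N | p ∈ O ∧ nv C l z nd (pl f (py p)) = true} : Set N).ncard : ℝ) +
          Fintype.card G * en := by
      have hsub : ({p : N | p ∈ O ∧ S.ev (an S f a nd) (py p) = true} : Set N) ⊆
          {p : N | p ∈ O ∧ nv C l z nd (pl f (py p)) = true} ∪ ⋃ g, F g := by
        intro p hp
        by_cases hpF : p ∈ (⋃ g, F g : Set N)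
        · exact Or.inr hpF
        · exact Or.inl ⟨hp.1, hdown p hpF hp.2⟩
      calc (({p : N | p ∈ O ∧ S.ev (an S f a nd) (py p) = true} : Set N).ncard : ℝ)
          ≤ (({p : N | p ∈ O ∧ nv C l z nd (pl f (py p)) = true} ∪ ⋃ g, F g :
              Set N).ncard : ℝ) := by
            exact_mod_cast Set.ncard_le_ncard hsub (Set.toFinite _)
        _ ≤ (({p : N | p ∈ O ∧ nv C l z nd (pl f (py p)) = true} : Set N).ncard : ℝ) +
            ((⋃ g, F g : Set N).ncard : ℝ) := by
            exact_mod_cast Set.ncard_union_le _ _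
        _ ≤ _ := by linarith
    have hP : (({p : P | nv C l z nd (pl f (px p)) = true} : Set P).ncard : ℝ) ≤
        (({p : P | S.ev (an S f a nd) (px p) = true} : Set P).ncard : ℝ) +
          Fintype.card G * ep := by
      have hsub : ({p : P | nv C l z nd (pl f (px p)) = true} : Set P) ⊆
          {p : P | S.ev (an S f a nd) (px p) = true} ∪ ⋃ g, E g := by
        intro p hp
        by_cases hpE : p ∈ (⋃ g, E g : Set P)
        · exact Or.inr hpE
        · exact Or.inl (hup p hpE hp)
      calc (({p : P | nv C l z nd (pl f (px p)) = true} : Set P).ncard : ℝ)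
          ≤ (({p : P | S.ev (an S f a nd) (px p) = true} ∪ ⋃ g, E g : Set P).ncard : ℝ) := by
            exact_mod_cast Set.ncard_le_ncard hsub (Set.toFinite _)
        _ ≤ (({p : P | S.ev (an S f a nd) (px p) = true} : Set P).ncard : ℝ) +
            ((⋃ g, E g : Set P).ncard : ℝ) := by
            exact_mod_cast Set.ncard_union_le _ _
        _ ≤ _ := by linarith
    have h3 := mul_le_mul_of_nonneg_left hP hα
    have h4 := mul_le_mul_of_nonneg_left hN hβ
    calc α * (({p : P | nv C l z nd (pl f (px p)) = true} : Set P).ncard : ℝ)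
        ≤ α * ((({p : P | S.ev (an S f a nd) (px p) = true} : Set P).ncard : ℝ) +
          Fintype.card G * ep) := h3
      _ = α * (({p : P | S.ev (an S f a nd) (px p) = true} : Set P).ncard : ℝ) +
          Fintype.card G * (α * ep) := by ring
      _ ≤ β * (({p : N | p ∈ O ∧ S.ev (an S f a nd) (py p) = true} : Set N).ncard : ℝ) +
          Fintype.card G * (α * ep) := by linarith
      _ ≤ β * ((({p : N | p ∈ O ∧ nv C l z nd (pl f (py p)) = true} : Set N).ncard : ℝ) +
          Fintype.card G * en) + Fintype.card G * (α * ep) := by linarith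
      _ = _ := by ring

end Approx

section Special

variable {E q : ℕ} {𝒜 : Set ((Fin q × Fin q → Bool) → Prop)} {J G : Type}

open Classical in
/-- **the positive tests against the odd colourings** on the nodes of a forced circuit -/
theorem node_po (h𝒜 : IsApp E q 𝒜) (hq : 0 < q) (hE : 1 ≤ E) [Fintype G]
    (hpo : ∀ A ∈ 𝒜, (∀ w, A w) ∨
      2 ^ (2 * q - 1) * (Finset.univ.filter (fun σ : Equiv.Perm (Fin q) => A (xin σ))).card ≤
        q.factorial * (Finset.univ.filter (fun c : Fin q ⊕ Fin q → Bool =>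
          par c = 1 ∧ A (yin c))).card)
    (C : Circuit J G) (l : Lev C) (z : G → Bool) (f : J → (Fin q × Fin q) ⊕ Bool)
    (nd : (J ⊕ Bool) ⊕ G) :
    2 ^ E * (2 ^ (2 * q - 1) * (Finset.univ.filter (fun σ : Equiv.Perm (Fin q) =>
        nv C l z nd (pl f (xin σ)) = true)).card) ≤
      2 ^ E * (q.factorial * (Finset.univ.filter (fun c : Fin q ⊕ Fin q → Bool =>
        par c = 1 ∧ nv C l z nd (pl f (yin c)) = true)).card) +
      Fintype.card G * (2 ^ (2 * q - 1) * q.factorial) := by
  have hodd : (Finset.univ.filter (fun c : Fin q ⊕ Fin q → Bool => par c = 1)).card =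
      2 ^ (2 * q - 1) := by
    have h1 := card_odd hq
    have h2 : 2 ^ (2 * q) = 2 * 2 ^ (2 * q - 1) := by
      rw [← pow_succ']
      congr 1
      omega
    omega
  have hO : ({c : Fin q ⊕ Fin q → Bool | par c = 1} : Set _) =
      ((Finset.univ.filter (fun c : Fin q ⊕ Fin q → Bool => par c = 1)) : Set _) := by
    ext c
    simp
  have hmain := node_po_gen (sysOf h𝒜) C l z f nd {c : Fin q ⊕ Fin q → Bool | par c = 1}
    ((2 : ℝ) ^ (2 * q - 1)) (q.factorial : ℝ) (by positivity) (by positivity)
    (by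
      rw [hO, Set.ncard_coe_finset, hodd, Fintype.card_perm, Fintype.card_fin]
      push_cast
      rw [mul_comm])
    (by
      intro a
      rcases hpo a.1 a.2 with h | h
      · exact Or.inl (fun w => decide_eq_true (h w))
      · right
        have e1 : ({p : Equiv.Perm (Fin q) | (sysOf h𝒜).ev a (xin p) = true} : Set _) =
            ((Finset.univ.filter (fun σ : Equiv.Perm (Fin q) => a.1 (xin σ))) : Set _) := by
          ext p
          simp only [Set.mem_ofPred_eq, Finset.coe_filter, Finset.mem_univ, true_and]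
          exact decide_eq_true_iff
        have e2 : ({p : Fin q ⊕ Fin q → Bool | p ∈ ({c : Fin q ⊕ Fin q → Bool | par c = 1} : Set _)
            ∧ (sysOf h𝒜).ev a (yin p) = true} : Set _) =
            ((Finset.univ.filter (fun c : Fin q ⊕ Fin q → Bool =>
              par c = 1 ∧ a.1 (yin c))) : Set _) := by
          ext p
          simp only [Set.mem_ofPred_eq, Finset.coe_filter, Finset.mem_univ, true_and]
          exact and_congr_right (fun _ => decide_eq_true_iff)
        rw [e1, e2, Set.ncard_coe_finset, Set.ncard_coe_finset]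
        exact_mod_cast h)
  have e1 : ({p : Equiv.Perm (Fin q) | nv C l z nd (pl f (xin p)) = true} : Set _) =
      ((Finset.univ.filter (fun σ : Equiv.Perm (Fin q) =>
        nv C l z nd (pl f (xin σ)) = true)) : Set _) := by
    ext p
    simp
  have e2 : ({p : Fin q ⊕ Fin q → Bool | p ∈ ({c : Fin q ⊕ Fin q → Bool | par c = 1} : Set _)
      ∧ nv C l z nd (pl f (yin p)) = true} : Set _) =
      ((Finset.univ.filter (fun c : Fin q ⊕ Fin q → Bool =>
        par c = 1 ∧ nv C l z nd (pl f (yin c)) = true)) : Set _) := by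
    ext p
    simp
  rw [e1, e2, Set.ncard_coe_finset, Set.ncard_coe_finset] at hmain
  -- the errors
  have herr : (2 : ℝ) ^ E * ((2 : ℝ) ^ (2 * q - 1) * ((q.factorial : ℝ) / (8 * 2 ^ E)) +
      (q.factorial : ℝ) * ((2 : ℝ) ^ (2 * q) / 2 ^ (4 * E))) ≤
      (2 : ℝ) ^ (2 * q - 1) * q.factorial := by
    have h1 : (2 : ℝ) ^ (2 * q) = 2 * 2 ^ (2 * q - 1) := by
      rw [← pow_succ']
      congr 1
      omega
    have h2 : (2 : ℝ) ^ (4 * E) = 2 ^ E * 2 ^ (3 * E) := by
      rw [← pow_add]
      congr 1
      omega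
    have h3 : (8 : ℝ) ≤ 2 ^ (3 * E) := by
      calc (8 : ℝ) = 2 ^ 3 := by norm_num
        _ ≤ 2 ^ (3 * E) := pow_le_pow_right₀ (by norm_num) (by omega)
    have hE0 : (0 : ℝ) < 2 ^ E := by positivity
    have h30 : (0 : ℝ) < 2 ^ (3 * E) := by positivity
    have hA : (0 : ℝ) ≤ (2 : ℝ) ^ (2 * q - 1) * q.factorial := by positivity
    have e : (2 : ℝ) ^ E * ((2 : ℝ) ^ (2 * q - 1) * ((q.factorial : ℝ) / (8 * 2 ^ E)) +
      (q.factorial : ℝ) * ((2 : ℝ) ^ (2 * q) / 2 ^ (4 * E))) =
      (2 : ℝ) ^ (2 * q - 1) * q.factorial * (1 / 8 + 2 / 2 ^ (3 * E)) := by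
      rw [h1, h2]
      field_simp
    rw [e]
    have h4 : (2 : ℝ) / 2 ^ (3 * E) ≤ 2 / 8 := by
      gcongr
    have h5 : (1 : ℝ) / 8 + 2 / 2 ^ (3 * E) ≤ 1 := by linarith
    calc (2 : ℝ) ^ (2 * q - 1) * q.factorial * (1 / 8 + 2 / 2 ^ (3 * E))
        ≤ (2 : ℝ) ^ (2 * q - 1) * q.factorial * 1 := mul_le_mul_of_nonneg_left h5 hA
      _ = _ := mul_one _
  have hfin : (2 : ℝ) ^ E * ((2 : ℝ) ^ (2 * q - 1) *
      ((Finset.univ.filter (fun σ : Equiv.Perm (Fin q) =>
        nv C l z nd (pl f (xin σ)) = true)).card : ℝ)) ≤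
      (2 : ℝ) ^ E * ((q.factorial : ℝ) * ((Finset.univ.filter (fun c : Fin q ⊕ Fin q → Bool =>
        par c = 1 ∧ nv C l z nd (pl f (yin c)) = true)).card : ℝ)) +
      (Fintype.card G : ℝ) * ((2 : ℝ) ^ (2 * q - 1) * q.factorial) := by
    have hE0 : (0 : ℝ) ≤ 2 ^ E := by positivity
    have hG : (0 : ℝ) ≤ Fintype.card G := Nat.cast_nonneg _
    have h1 := mul_le_mul_of_nonneg_left hmain hE0
    have h2 := mul_le_mul_of_nonneg_left herr hG
    nlinarith
  exact_mod_cast hfin

open Classical in
/-- **the two cases for a node of a forced circuit**, with arbitrary weights `a` and `b` -/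
theorem node_alt (h𝒜 : IsApp E q 𝒜) [Fintype G] (a b : ℕ)
    (hpo : ∀ A ∈ 𝒜, (∀ w, A w) ∨
      a * (Finset.univ.filter (fun σ : Equiv.Perm (Fin q) => A (xin σ))).card ≤
        b * (Finset.univ.filter (fun c : Fin q ⊕ Fin q → Bool =>
          par c = 1 ∧ A (yin c))).card)
    (C : Circuit J G) (l : Lev C) (z : G → Bool) (f : J → (Fin q × Fin q) ⊕ Bool)
    (nd : (J ⊕ Bool) ⊕ G) :
    (a : ℝ) * ((Finset.univ.filter (fun σ : Equiv.Perm (Fin q) =>
        nv C l z nd (pl f (xin σ)) = true)).card : ℝ) ≤
      (b : ℝ) * ((Finset.univ.filter (fun c : Fin q ⊕ Fin q → Bool =>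
        par c = 1 ∧ nv C l z nd (pl f (yin c)) = true)).card : ℝ) +
      (Fintype.card G : ℝ) * ((a : ℝ) * ((q.factorial : ℝ) / (8 * 2 ^ E)) +
        (b : ℝ) * ((2 : ℝ) ^ (2 * q) / 2 ^ (4 * E))) ∨
    ((Finset.univ.filter (fun c : Fin q ⊕ Fin q → Bool =>
        nv C l z nd (pl f (yin c)) = false)).card : ℝ) ≤
      (Fintype.card G : ℝ) * ((2 : ℝ) ^ (2 * q) / 2 ^ (4 * E)) := by
  have hmain := node_alt_gen (sysOf h𝒜) C l z f nd {c : Fin q ⊕ Fin q → Bool | par c = 1}
    (a : ℝ) (b : ℝ) (by positivity) (by positivity)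
    (by
      intro d
      rcases hpo d.1 d.2 with h | h
      · exact Or.inl (fun w => decide_eq_true (h w))
      · right
        have e1 : ({p : Equiv.Perm (Fin q) | (sysOf h𝒜).ev d (xin p) = true} : Set _) =
            ((Finset.univ.filter (fun σ : Equiv.Perm (Fin q) => d.1 (xin σ))) : Set _) := by
          ext p
          simp only [Set.mem_ofPred_eq, Finset.coe_filter, Finset.mem_univ, true_and]
          exact decide_eq_true_iff
        have e2 : ({p : Fin q ⊕ Fin q → Bool | p ∈ ({c : Fin q ⊕ Fin q → Bool | par c = 1} : Set _)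
            ∧ (sysOf h𝒜).ev d (yin p) = true} : Set _) =
            ((Finset.univ.filter (fun c : Fin q ⊕ Fin q → Bool =>
              par c = 1 ∧ d.1 (yin c))) : Set _) := by
          ext p
          simp only [Set.mem_ofPred_eq, Finset.coe_filter, Finset.mem_univ, true_and]
          exact and_congr_right (fun _ => decide_eq_true_iff)
        rw [e1, e2, Set.ncard_coe_finset, Set.ncard_coe_finset]
        exact_mod_cast h)
  have e1 : ({p : Equiv.Perm (Fin q) | nv C l z nd (pl f (xin p)) = true} : Set _) =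
      ((Finset.univ.filter (fun σ : Equiv.Perm (Fin q) =>
        nv C l z nd (pl f (xin σ)) = true)) : Set _) := by
    ext p
    simp
  have e2 : ({p : Fin q ⊕ Fin q → Bool | p ∈ ({c : Fin q ⊕ Fin q → Bool | par c = 1} : Set _)
      ∧ nv C l z nd (pl f (yin p)) = true} : Set _) =
      ((Finset.univ.filter (fun c : Fin q ⊕ Fin q → Bool =>
        par c = 1 ∧ nv C l z nd (pl f (yin c)) = true)) : Set _) := by
    ext p
    simp
  have e3 : ({p : Fin q ⊕ Fin q → Bool | nv C l z nd (pl f (yin p)) = false} : Set _) =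
      ((Finset.univ.filter (fun c : Fin q ⊕ Fin q → Bool =>
        nv C l z nd (pl f (yin c)) = false)) : Set _) := by
    ext p
    simp
  rw [e1, e2, e3, Set.ncard_coe_finset, Set.ncard_coe_finset, Set.ncard_coe_finset] at hmain
  exact hmain

end Special

end Pool.Agent.NEGQ
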