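import Pool.Agent.Lib.MP_0087d5_lc.NEGS.Main
import Pool.Agent.Lib.MP_0087d5_lc.NEGS.ExApp

/-!
Approximators are at least as often true on the odd colourings as on the perfect matchings.
-/

namespace Pool.Agent.NEGQ

open Pool.Agent.NEG Pool.Agent.NEGS Finset

variable {q : ℕ}

/-- change the colours of two left vertices -/
def flip2 (a v : Fin q) (c : Fin q ⊕ Fin q → Bool) : Fin q ⊕ Fin q → Bool :=
  Function.update (Function.update c (.inl a) (!c (.inl a))) (.inl v) (!c (.inl v))

theorem par_flip2 {a v : Fin q} (h : a ≠ v) (c : Fin q ⊕ Fin q → Bool) :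
    par (flip2 a v c) = par c := by
  have hne : (Sum.inl v : Fin q ⊕ Fin q) ≠ Sum.inl a := fun h' => h (Sum.inl.inj h').symm
  have h1 : (Function.update c (Sum.inl a) (!c (Sum.inl a))) (Sum.inl v) = c (Sum.inl v) :=
    Function.update_of_ne hne _ _
  unfold flip2
  rw [← h1, par_flip, par_flip, add_assoc]
  have h2 : (1 : ZMod 2) + 1 = 0 := by decide
  rw [h2, add_zero]

theorem flip2_inr (a v : Fin q) (c : Fin q ⊕ Fin q → Bool) (b : Fin q) :
    flip2 a v c (.inr b) = c (.inr b) := by
  unfold flip2
  rw [Function.update_of_ne (by simp), Function.update_of_ne (by simp)]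

theorem flip2_inl {a v : Fin q} (c : Fin q ⊕ Fin q → Bool) (b : Fin q) (h1 : b ≠ a)
    (h2 : b ≠ v) : flip2 a v c (.inl b) = c (.inl b) := by
  unfold flip2
  rw [Function.update_of_ne (by simpa using h2), Function.update_of_ne (by simpa using h1)]

theorem flip2_a {a v : Fin q} (h : a ≠ v) (c : Fin q ⊕ Fin q → Bool) :
    flip2 a v c (.inl a) = !c (.inl a) := by
  unfold flip2
  rw [Function.update_of_ne (by simpa using h), Function.update_self]

theorem flip2_flip2 {a v : Fin q} (h : a ≠ v) (c : Fin q ⊕ Fin q → Bool) :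
    flip2 a v (flip2 a v c) = c := by
  have h1 : flip2 a v c (.inl v) = !c (.inl v) := by
    unfold flip2
    rw [Function.update_self]
  funext w
  rcases w with b | b
  · by_cases h2 : b = v
    · subst h2
      have h3 : flip2 a b (flip2 a b c) (.inl b) = !(flip2 a b c (.inl b)) := by
        conv_lhs => unfold flip2
        rw [Function.update_self]
        rfl
      rw [h3, h1, Bool.not_not]
    · by_cases h3 : b = a
      · subst h3
        rw [flip2_a h, flip2_a h, Bool.not_not]
      · rw [flip2_inl _ _ h3 h2, flip2_inl _ _ h3 h2]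
  · rw [flip2_inr, flip2_inr]

open Classical in
/-- the number of odd colourings for which all edges of a matching are monochromatic -/
theorem odd_mono {l : ℕ} (R0 : Finset (Fin q × Fin q)) (hR : Term l R0) (hq : R0.card < q) :
    2 ^ (2 * q) ≤ 2 * (2 ^ R0.card * (univ.filter (fun c : Fin q ⊕ Fin q → Bool =>
      par c = 1 ∧ ∀ e ∈ R0, yin c e = true)).card) := by
  have hq0 : 0 < q := by omega
  -- a left vertex outside
  have hv : ∃ v : Fin q, v ∉ R0.image Prod.fst := by
    by_contra hcon
    push Not at hcon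
    have h1 : (univ : Finset (Fin q)) ⊆ R0.image Prod.fst := fun v _ => hcon v
    have h2 := card_le_card h1
    rw [card_univ, Fintype.card_fin] at h2
    have h3 := (card_image_le (s := R0) (f := Prod.fst))
    omega
  obtain ⟨v, hv⟩ := hv
  have key : ∀ R : Finset (Fin q × Fin q), R ⊆ R0 →
      2 ^ (2 * q) ≤ 2 * (2 ^ R.card * (univ.filter (fun c : Fin q ⊕ Fin q → Bool =>
        par c = 1 ∧ ∀ e ∈ R, yin c e = true)).card) := by
    intro R
    induction R using Finset.induction_on with
    | empty =>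
        intro _
        have h1 := card_odd (q := q) hq0
        rw [card_empty, pow_zero, Nat.one_mul, ← h1]
        apply le_of_eq
        congr 2
        ext c
        simp
    | insert e R he ih =>
        intro hsub
        have hRR : R ⊆ R0 := (subset_insert e R).trans hsub
        have heR : e ∈ R0 := hsub (mem_insert_self e R)
        have h1 := ih hRR
        rw [card_insert_of_notMem he, pow_succ]
        have hev : e.1 ≠ v := fun h => hv (mem_image.mpr ⟨e, heR, h⟩)
        have h2 := card_filter_add_card_filter_not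
          (s := univ.filter (fun c : Fin q ⊕ Fin q → Bool =>
            par c = 1 ∧ ∀ f ∈ R, yin c f = true)) (fun c => yin c e = true)
        have h3 : ((univ.filter (fun c : Fin q ⊕ Fin q → Bool =>
            par c = 1 ∧ ∀ f ∈ R, yin c f = true)).filter (fun c => ¬ yin c e = true)).card ≤
            ((univ.filter (fun c : Fin q ⊕ Fin q → Bool =>
            par c = 1 ∧ ∀ f ∈ R, yin c f = true)).filter (fun c => yin c e = true)).card := by
          apply card_le_card_of_injOn (flip2 e.1 v)
          · intro c hc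
            rw [mem_coe, mem_filter, mem_filter] at hc ⊢
            obtain ⟨⟨_, hc1, hc2⟩, hc3⟩ := hc
            refine ⟨⟨mem_univ _, ?_, ?_⟩, ?_⟩
            · rw [par_flip2 hev]
              exact hc1
            · intro f hf
              have hf1 : f.1 ≠ e.1 := by
                intro h
                have := hR.2 f (hRR hf) e heR (Or.inl h)
                rw [this] at hf
                exact he hf
              have hf2 : f.1 ≠ v := fun h => hv (mem_image.mpr ⟨f, hRR hf, h⟩)
              have h4 := hc2 f hf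
              simp only [yin] at h4 ⊢
              rw [flip2_inr, flip2_inl _ _ hf1 hf2]
              exact h4
            · simp only [yin, decide_eq_true_eq] at hc3 ⊢
              rw [flip2_a hev, flip2_inr]
              revert hc3
              cases c (.inl e.1) <;> cases c (.inr e.2) <;> simp
          · intro c _ c' _ h
            have h5 := congrArg (flip2 e.1 v) h
            rwa [flip2_flip2 hev, flip2_flip2 hev] at h5
        have h4 : ((univ.filter (fun c : Fin q ⊕ Fin q → Bool =>
            par c = 1 ∧ ∀ f ∈ R, yin c f = true)).filter (fun c => yin c e = true)) =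
            univ.filter (fun c : Fin q ⊕ Fin q → Bool =>
            par c = 1 ∧ ∀ f ∈ insert e R, yin c f = true) := by
          ext c
          simp only [mem_filter, mem_univ, true_and, forall_mem_insert]
          tauto
        rw [h4] at h2 h3
        have h5 : (univ.filter (fun c : Fin q ⊕ Fin q → Bool =>
            par c = 1 ∧ ∀ f ∈ R, yin c f = true)).card ≤
            2 * (univ.filter (fun c : Fin q ⊕ Fin q → Bool =>
            par c = 1 ∧ ∀ f ∈ insert e R, yin c f = true)).card := by omega
        calc 2 ^ (2 * q) ≤ 2 * (2 ^ R.card * (univ.filter (fun c : Fin q ⊕ Fin q → Bool =>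
              par c = 1 ∧ ∀ f ∈ R, yin c f = true)).card) := h1
          _ ≤ 2 * (2 ^ R.card * (2 * (univ.filter (fun c : Fin q ⊕ Fin q → Bool =>
              par c = 1 ∧ ∀ f ∈ insert e R, yin c f = true)).card)) := by gcongr
          _ = _ := by ring
  exact key R0 Subset.rfl

/-- a geometric sum from `i0` -/
theorem sum_geo (cnt : ℕ → ℕ) (F i0 l : ℕ)
    (h : ∀ i, i0 ≤ i → i ≤ l → 2 ^ (i + 1) * cnt i ≤ F) :
    2 ^ i0 * ∑ i ∈ Icc i0 l, cnt i ≤ F := by
  have key : ∀ m : ℕ, i0 + m ≤ l + 1 →
      2 ^ (i0 + m) * ∑ k ∈ range m, cnt (i0 + k) ≤ (2 ^ m - 1) * F := by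
    intro m
    induction m with
    | zero => intro _; simp
    | succ m ih =>
        intro hm
        have h1 := ih (by omega)
        have h2 := h (i0 + m) (by omega) (by omega)
        rw [sum_range_succ]
        have h3 : 2 ^ (i0 + (m + 1)) = 2 * 2 ^ (i0 + m) := by
          rw [← add_assoc, pow_succ']
        have h4 : 2 ^ (m + 1) - 1 = 2 * (2 ^ m - 1) + 1 := by
          have : 1 ≤ 2 ^ m := Nat.one_le_two_pow
          rw [pow_succ']
          omega
        rw [h4]
        calc 2 ^ (i0 + (m + 1)) * (∑ k ∈ range m, cnt (i0 + k) + cnt (i0 + m))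
            = 2 * (2 ^ (i0 + m) * ∑ k ∈ range m, cnt (i0 + k)) +
                2 ^ (i0 + m + 1) * cnt (i0 + m) := by rw [h3, pow_succ]; ring
          _ ≤ 2 * ((2 ^ m - 1) * F) + F := by
              exact Nat.add_le_add (Nat.mul_le_mul_left _ h1) h2
          _ = _ := by ring
  by_cases hil : i0 ≤ l
  · have h1 := key (l + 1 - i0) (by omega)
    have h2 : ∑ i ∈ Icc i0 l, cnt i = ∑ k ∈ range (l + 1 - i0), cnt (i0 + k) := by
      have h3 : Icc i0 l = Ico i0 (l + 1) := by
        ext i
        simp only [mem_Icc, mem_Ico]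
        omega
      rw [h3, sum_Ico_eq_sum_range]
    rw [h2]
    have hpos : 0 < 2 ^ (l + 1 - i0) := by positivity
    apply Nat.le_of_mul_le_mul_left _ hpos
    calc 2 ^ (l + 1 - i0) * (2 ^ i0 * ∑ k ∈ range (l + 1 - i0), cnt (i0 + k))
        = 2 ^ (i0 + (l + 1 - i0)) * ∑ k ∈ range (l + 1 - i0), cnt (i0 + k) := by
          rw [pow_add]; ring
      _ ≤ (2 ^ (l + 1 - i0) - 1) * F := h1
      _ ≤ 2 ^ (l + 1 - i0) * F := Nat.mul_le_mul_right _ (Nat.sub_le _ _)
  · have h1 : Icc i0 l = ∅ := by
      rw [Icc_eq_empty_iff]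
      exact hil
    rw [h1, sum_empty, Nat.mul_zero]
    exact Nat.zero_le _

open Classical in
/-- closed families are at least as often true on odd colourings as on perfect matchings -/
theorem po_count {l ρ B : ℕ} (hB : 1 ≤ B) (hsun : Sun q l ρ B) (hq : 64 * B ≤ q - 2 * l)
    {𝓕 : Finset (Finset (Fin q × Fin q))} (h𝓕 : Closed l ρ 𝓕) :
    (∀ w, ev 𝓕 w) ∨
    2 ^ (2 * q - 1) * (univ.filter (fun σ : Equiv.Perm (Fin q) => ev 𝓕 (xin σ))).card ≤
      q.factorial * (univ.filter (fun c : Fin q ⊕ Fin q → Bool =>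
        par c = 1 ∧ ev 𝓕 (yin c))).card := by
  by_cases he : ∅ ∈ 𝓕
  · left
    intro w
    exact ⟨∅, he, by simp⟩
  right
  by_cases hne : 𝓕.Nonempty
  swap
  · rw [not_nonempty_iff_eq_empty] at hne
    have h0 : univ.filter (fun σ : Equiv.Perm (Fin q) => ev 𝓕 (xin σ)) = ∅ := by
      rw [filter_eq_empty_iff]
      rintro σ _ ⟨R, hR, _⟩
      rw [hne] at hR
      exact absurd hR (notMem_empty R)
    rw [h0, card_empty, Nat.mul_zero]
    exact Nat.zero_le _
  obtain ⟨R0, hR0, hmin⟩ := exists_min_image 𝓕 Finset.card hne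
  set i0 := R0.card with hi0
  have hpos0 : 1 ≤ i0 := by
    rw [Nat.one_le_iff_ne_zero, Ne, hi0, card_eq_zero]
    rintro rfl
    exact he hR0
  have hi0l : i0 ≤ l := (h𝓕.term R0 hR0).1
  have hlq : i0 < q := by omega
  have hsub : univ.filter (fun σ : Equiv.Perm (Fin q) => ev 𝓕 (xin σ)) ⊆
      (Icc i0 l).biUnion (fun i => ((mins 𝓕).filter (fun R => R.card = i)).biUnion
        (fun R => thru R)) := by
    intro σ hσ
    rw [mem_filter] at hσ
    obtain ⟨_, R', hR', hRσ⟩ := hσ
    obtain ⟨R, hR, hRR⟩ := exists_min 𝓕 R' hR'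
    have hR𝓕 := (mem_filter.mp hR).1
    have hc := (h𝓕.term R hR𝓕).1
    refine mem_biUnion.mpr ⟨R.card, mem_Icc.mpr ⟨hmin R hR𝓕, hc⟩, mem_biUnion.mpr
      ⟨R, mem_filter.mpr ⟨hR, rfl⟩, ?_⟩⟩
    rw [mem_thru]
    intro e he
    have := hRσ e (hRR he)
    simpa [xin] using this
  have h1 := (card_le_card hsub).trans (card_biUnion_le)
  have h2 : ∀ i, i0 ≤ i → i ≤ l → 2 ^ (i + 1) *
      (((mins 𝓕).filter (fun R => R.card = i)).biUnion (fun R => thru R)).card ≤
      q.factorial := by
    intro i hi1 hi2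
    have hqr : 0 < (q - 2 * l) ^ i := Nat.pow_pos (by omega)
    have h3 : (q - 2 * l) ^ i * (((mins 𝓕).filter (fun R => R.card = i)).biUnion
        (fun R => thru R)).card ≤ B ^ i * q.factorial := by
      calc (q - 2 * l) ^ i * (((mins 𝓕).filter (fun R => R.card = i)).biUnion
            (fun R => thru R)).card
          ≤ (q - 2 * l) ^ i * ∑ R ∈ (mins 𝓕).filter (fun R => R.card = i), (thru R).card :=
            Nat.mul_le_mul_left _ card_biUnion_le
        _ = ∑ R ∈ (mins 𝓕).filter (fun R => R.card = i),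
            (q - 2 * l) ^ i * (thru R).card := by
            rw [mul_sum]
        _ ≤ ∑ R ∈ (mins 𝓕).filter (fun R => R.card = i), q.factorial := by
            apply sum_le_sum
            intro R hR
            have hc := (mem_filter.mp hR).2
            have h4 := thru_card R (2 * l) (by omega)
            rw [hc] at h4
            exact h4
        _ = ((mins 𝓕).filter (fun R => R.card = i)).card * q.factorial := by simp
        _ ≤ B ^ i * q.factorial := by
            apply Nat.mul_le_mul_right
            have h5 := card_mins_over hsun h𝓕 i ∅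
            simpa only [card_empty, pow_zero, mul_one, empty_subset, and_true] using h5
    apply Nat.le_of_mul_le_mul_left _ hqr
    calc (q - 2 * l) ^ i * (2 ^ (i + 1) * (((mins 𝓕).filter (fun R => R.card = i)).biUnion
          (fun R => thru R)).card)
        = 2 ^ (i + 1) * ((q - 2 * l) ^ i * (((mins 𝓕).filter (fun R => R.card = i)).biUnion
          (fun R => thru R)).card) := by ring
      _ ≤ 2 ^ (i + 1) * (B ^ i * q.factorial) := Nat.mul_le_mul_left _ h3
      _ ≤ 64 ^ i * (B ^ i * q.factorial) := by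
          apply Nat.mul_le_mul_right
          calc 2 ^ (i + 1) ≤ 2 ^ (6 * i) := Nat.pow_le_pow_right (by norm_num) (by omega)
            _ = 64 ^ i := by rw [pow_mul]; norm_num
      _ = (64 * B) ^ i * q.factorial := by rw [mul_pow]; ring
      _ ≤ (q - 2 * l) ^ i * q.factorial :=
          Nat.mul_le_mul_right _ (Nat.pow_le_pow_left hq i)
  have h3 := sum_geo _ _ i0 l h2
  have h4 : 2 ^ i0 * (univ.filter (fun σ : Equiv.Perm (Fin q) => ev 𝓕 (xin σ))).card ≤
      q.factorial := (Nat.mul_le_mul_left _ h1).trans h3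
  have h5 := odd_mono R0 (h𝓕.term R0 hR0) hlq
  have h6 : (univ.filter (fun c : Fin q ⊕ Fin q → Bool =>
      par c = 1 ∧ ∀ e ∈ R0, yin c e = true)).card ≤
      (univ.filter (fun c : Fin q ⊕ Fin q → Bool => par c = 1 ∧ ev 𝓕 (yin c))).card := by
    apply card_le_card
    intro c hc
    rw [mem_filter] at hc ⊢
    exact ⟨mem_univ _, hc.2.1, R0, hR0, hc.2.2⟩
  have h7 : 2 ^ (2 * q) = 2 * 2 ^ (2 * q - 1) := by
    rw [← pow_succ']
    congr 1
    omega
  rw [h7] at h5
  have h8 : 2 ^ (2 * q - 1) ≤ 2 ^ i0 * (univ.filter (fun c : Fin q ⊕ Fin q → Bool =>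
      par c = 1 ∧ ev 𝓕 (yin c))).card :=
    (Nat.le_of_mul_le_mul_left h5 (by norm_num)).trans (Nat.mul_le_mul_left _ h6)
  calc 2 ^ (2 * q - 1) * (univ.filter (fun σ : Equiv.Perm (Fin q) => ev 𝓕 (xin σ))).card
      ≤ 2 ^ i0 * (univ.filter (fun c : Fin q ⊕ Fin q → Bool =>
          par c = 1 ∧ ev 𝓕 (yin c))).card *
          (univ.filter (fun σ : Equiv.Perm (Fin q) => ev 𝓕 (xin σ))).card :=
        Nat.mul_le_mul_right _ h8
    _ = 2 ^ i0 * (univ.filter (fun σ : Equiv.Perm (Fin q) => ev 𝓕 (xin σ))).card *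
          (univ.filter (fun c : Fin q ⊕ Fin q → Bool =>
          par c = 1 ∧ ev 𝓕 (yin c))).card := by ring
    _ ≤ _ := Nat.mul_le_mul_right _ h4

open Classical in
/-- the approximators are at least as often true on odd colourings as on perfect matchings -/
def IsPO (q : ℕ) (𝒜 : Set ((Fin q × Fin q → Bool) → Prop)) : Prop :=
  ∀ A ∈ 𝒜, (∀ w, A w) ∨
    2 ^ (2 * q - 1) * (univ.filter (fun σ : Equiv.Perm (Fin q) => A (xin σ))).card ≤
      q.factorial * (univ.filter (fun c : Fin q ⊕ Fin q → Bool =>
        par c = 1 ∧ A (yin c))).card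

/-- the class of approximators with the comparison of perfect matchings and odd colourings -/
theorem exists_app_po (l : ℕ) (hl : 2 ^ 38 ≤ l) :
    ∃ 𝒜 : Set ((Fin (l ^ 7) × Fin (l ^ 7) → Bool) → Prop), IsApp l (l ^ 7) 𝒜 ∧
      IsPO (l ^ 7) 𝒜 := by
  obtain ⟨k, h1, h2, h3, h4, h5⟩ := app_numbers l hl
  have hsun := sun (l ^ 7) l k (by omega)
  refine ⟨_, isApp_cl h1 h2 h3 hsun h4 h5, ?_⟩
  rintro A ⟨𝓕, h𝓕, rfl⟩
  exact po_count h3 hsun h4 h𝓕

end Pool.Agent.NEGQ
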