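import Pool.Agent.Lib.MP_0087d5_lc.NEGQ.PO

/-!
The amplified comparison of perfect matchings and odd colourings for approximators.
-/

namespace Pool.Agent.NEGQ

open Pool.Agent.NEG Pool.Agent.NEGS Finset

variable {q : ℕ}

/-- a geometric sum from `i0` with the ratio `B / Q` -/
theorem sum_geo2 (cnt : ℕ → ℕ) (F Q B i0 l : ℕ) (hQ : 64 * B ≤ Q) (hB : 1 ≤ B)
    (h : ∀ i, i0 ≤ i → i ≤ l → Q ^ i * cnt i ≤ B ^ i * F) :
    Q ^ i0 * ∑ i ∈ Icc i0 l, cnt i ≤ 2 * (B ^ i0 * F) := by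
  have hQ0 : 0 < Q := by omega
  -- the terms decrease by the factor two
  have hterm : ∀ k : ℕ, i0 + k ≤ l → 2 ^ k * (Q ^ i0 * cnt (i0 + k)) ≤ B ^ i0 * F := by
    intro k hk
    have h1 := h (i0 + k) (by omega) hk
    have hpos : 0 < Q ^ k := Nat.pow_pos hQ0
    apply Nat.le_of_mul_le_mul_left _ hpos
    calc Q ^ k * (2 ^ k * (Q ^ i0 * cnt (i0 + k)))
        = 2 ^ k * (Q ^ (i0 + k) * cnt (i0 + k)) := by rw [pow_add]; ring
      _ ≤ 2 ^ k * (B ^ (i0 + k) * F) := Nat.mul_le_mul_left _ h1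
      _ = (2 * B) ^ k * (B ^ i0 * F) := by rw [mul_pow, pow_add]; ring
      _ ≤ Q ^ k * (B ^ i0 * F) :=
          Nat.mul_le_mul_right _ (Nat.pow_le_pow_left (by omega) k)
  have key : ∀ m : ℕ, i0 + m ≤ l + 1 →
      2 ^ m * ∑ k ∈ range m, (Q ^ i0 * cnt (i0 + k)) ≤ 2 * ((2 ^ m - 1) * (B ^ i0 * F)) := by
    intro m
    induction m with
    | zero => intro _; simp
    | succ m ih =>
        intro hm
        have h1 := ih (by omega)
        have h2 := hterm m (by omega)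
        rw [sum_range_succ]
        have h4 : 2 ^ (m + 1) - 1 = 2 * (2 ^ m - 1) + 1 := by
          have : 1 ≤ 2 ^ m := Nat.one_le_two_pow
          rw [pow_succ']
          omega
        rw [h4]
        calc 2 ^ (m + 1) * (∑ k ∈ range m, (Q ^ i0 * cnt (i0 + k)) + Q ^ i0 * cnt (i0 + m))
            = 2 * (2 ^ m * ∑ k ∈ range m, (Q ^ i0 * cnt (i0 + k))) +
                2 * (2 ^ m * (Q ^ i0 * cnt (i0 + m))) := by rw [pow_succ]; ring
          _ ≤ 2 * (2 * ((2 ^ m - 1) * (B ^ i0 * F))) + 2 * (B ^ i0 * F) :=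
              Nat.add_le_add (Nat.mul_le_mul_left _ h1) (Nat.mul_le_mul_left _ h2)
          _ = _ := by ring
  by_cases hil : i0 ≤ l
  · have h1 := key (l + 1 - i0) (by omega)
    have h2 : ∑ i ∈ Icc i0 l, cnt i = ∑ k ∈ range (l + 1 - i0), cnt (i0 + k) := by
      have h3 : Icc i0 l = Ico i0 (l + 1) := by
        ext i
        simp only [mem_Icc, mem_Ico]
        omega
      rw [h3, sum_Ico_eq_sum_range]
    rw [h2, mul_sum]
    have hpos : 0 < 2 ^ (l + 1 - i0) := by positivity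
    apply Nat.le_of_mul_le_mul_left _ hpos
    calc _ ≤ 2 * ((2 ^ (l + 1 - i0) - 1) * (B ^ i0 * F)) := h1
      _ ≤ 2 * (2 ^ (l + 1 - i0) * (B ^ i0 * F)) :=
          Nat.mul_le_mul_left _ (Nat.mul_le_mul_right _ (Nat.sub_le _ _))
      _ = _ := by ring
  · have h1 : Icc i0 l = ∅ := by
      rw [Icc_eq_empty_iff]
      exact hil
    rw [h1, sum_empty, Nat.mul_zero]
    exact Nat.zero_le _

open Classical in
/-- closed families are much more often true on odd colourings than on perfect matchings -/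
theorem po_amp {l ρ B : ℕ} (hB : 1 ≤ B) (hsun : Sun q l ρ B) (hq : 64 * B ≤ q - 2 * l)
    {𝓕 : Finset (Finset (Fin q × Fin q))} (h𝓕 : Closed l ρ 𝓕) :
    (∀ w, ev 𝓕 w) ∨
    (q - 2 * l) * (2 ^ (2 * q - 1) *
      (univ.filter (fun σ : Equiv.Perm (Fin q) => ev 𝓕 (xin σ))).card) ≤
      4 * B * (q.factorial * (univ.filter (fun c : Fin q ⊕ Fin q → Bool =>
        par c = 1 ∧ ev 𝓕 (yin c))).card) := by
  by_cases he : ∅ ∈ 𝓕
  · left
    intro w
    exact ⟨∅, he, by simp⟩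
  right
  by_cases hne : 𝓕.Nonempty
  swap
  · rw [not_nonempty_iff_eq_empty] at hne
    have h0 : univ.filter (fun σ : Equiv.Perm (Fin q) => ev 𝓕 (xin σ)) = ∅ := by
      rw [filter_eq_empty_iff]
      rintro σ _ ⟨R, hR, _⟩
      rw [hne] at hR
      exact absurd hR (notMem_empty R)
    rw [h0, card_empty, Nat.mul_zero, Nat.mul_zero]
    exact Nat.zero_le _
  obtain ⟨R0, hR0, hmin⟩ := exists_min_image 𝓕 Finset.card hne
  set i0 := R0.card with hi0
  have hpos0 : 1 ≤ i0 := by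
    rw [Nat.one_le_iff_ne_zero, Ne, hi0, card_eq_zero]
    rintro rfl
    exact he hR0
  have hi0l : i0 ≤ l := (h𝓕.term R0 hR0).1
  have hlq : i0 < q := by omega
  have hsub : univ.filter (fun σ : Equiv.Perm (Fin q) => ev 𝓕 (xin σ)) ⊆
      (Icc i0 l).biUnion (fun i => ((mins 𝓕).filter (fun R => R.card = i)).biUnion
        (fun R => thru R)) := by
    intro σ hσ
    rw [mem_filter] at hσ
    obtain ⟨_, R', hR', hRσ⟩ := hσ
    obtain ⟨R, hR, hRR⟩ := exists_min 𝓕 R' hR'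
    have hR𝓕 := (mem_filter.mp hR).1
    have hc := (h𝓕.term R hR𝓕).1
    refine mem_biUnion.mpr ⟨R.card, mem_Icc.mpr ⟨hmin R hR𝓕, hc⟩, mem_biUnion.mpr
      ⟨R, mem_filter.mpr ⟨hR, rfl⟩, ?_⟩⟩
    rw [mem_thru]
    intro e he
    have := hRσ e (hRR he)
    simpa [xin] using this
  have h1 := (card_le_card hsub).trans (card_biUnion_le)
  set Q := q - 2 * l with hQ
  have h2 : ∀ i, i0 ≤ i → i ≤ l → Q ^ i *
      (((mins 𝓕).filter (fun R => R.card = i)).biUnion (fun R => thru R)).card ≤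
      B ^ i * q.factorial := by
    intro i hi1 hi2
    calc (q - 2 * l) ^ i * (((mins 𝓕).filter (fun R => R.card = i)).biUnion
          (fun R => thru R)).card
        ≤ (q - 2 * l) ^ i * ∑ R ∈ (mins 𝓕).filter (fun R => R.card = i), (thru R).card :=
          Nat.mul_le_mul_left _ card_biUnion_le
      _ = ∑ R ∈ (mins 𝓕).filter (fun R => R.card = i),
          (q - 2 * l) ^ i * (thru R).card := by
          rw [mul_sum]
      _ ≤ ∑ R ∈ (mins 𝓕).filter (fun R => R.card = i), q.factorial := by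
          apply sum_le_sum
          intro R hR
          have hc := (mem_filter.mp hR).2
          have h4 := thru_card R (2 * l) (by omega)
          rw [hc] at h4
          exact h4
      _ = ((mins 𝓕).filter (fun R => R.card = i)).card * q.factorial := by simp
      _ ≤ B ^ i * q.factorial := by
          apply Nat.mul_le_mul_right
          have h5 := card_mins_over hsun h𝓕 i ∅
          simpa only [card_empty, pow_zero, mul_one, empty_subset, and_true] using h5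
  have h3 := sum_geo2 _ _ Q B i0 l hq hB h2
  have h4 : Q ^ i0 * (univ.filter (fun σ : Equiv.Perm (Fin q) => ev 𝓕 (xin σ))).card ≤
      2 * (B ^ i0 * q.factorial) := (Nat.mul_le_mul_left _ h1).trans h3
  -- only the first power of the ratio is used
  have h9 : Q * (2 ^ i0 * (univ.filter
      (fun σ : Equiv.Perm (Fin q) => ev 𝓕 (xin σ))).card) ≤ 4 * B * q.factorial := by
    obtain ⟨j, hj⟩ : ∃ j, i0 = j + 1 := ⟨i0 - 1, by omega⟩
    have hQ0 : 0 < Q := by omega
    have hpos : 0 < Q ^ j := Nat.pow_pos hQ0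
    apply Nat.le_of_mul_le_mul_left _ hpos
    calc Q ^ j * (Q * (2 ^ i0 * (univ.filter
          (fun σ : Equiv.Perm (Fin q) => ev 𝓕 (xin σ))).card))
        = 2 ^ i0 * (Q ^ i0 * (univ.filter
          (fun σ : Equiv.Perm (Fin q) => ev 𝓕 (xin σ))).card) := by rw [hj, pow_succ Q]; ring
      _ ≤ 2 ^ i0 * (2 * (B ^ i0 * q.factorial)) := Nat.mul_le_mul_left _ h4
      _ = (2 * B) ^ j * (4 * B * q.factorial) := by
          rw [hj, mul_pow, pow_succ, pow_succ]; ring
      _ ≤ Q ^ j * (4 * B * q.factorial) :=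
          Nat.mul_le_mul_right _ (Nat.pow_le_pow_left (by omega) j)
  have h5 := odd_mono R0 (h𝓕.term R0 hR0) hlq
  have h6 : (univ.filter (fun c : Fin q ⊕ Fin q → Bool =>
      par c = 1 ∧ ∀ e ∈ R0, yin c e = true)).card ≤
      (univ.filter (fun c : Fin q ⊕ Fin q → Bool => par c = 1 ∧ ev 𝓕 (yin c))).card := by
    apply card_le_card
    intro c hc
    rw [mem_filter] at hc ⊢
    exact ⟨mem_univ _, hc.2.1, R0, hR0, hc.2.2⟩
  have h7 : 2 ^ (2 * q) = 2 * 2 ^ (2 * q - 1) := by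
    rw [← pow_succ']
    congr 1
    omega
  rw [h7] at h5
  have h8 : 2 ^ (2 * q - 1) ≤ 2 ^ i0 * (univ.filter (fun c : Fin q ⊕ Fin q → Bool =>
      par c = 1 ∧ ev 𝓕 (yin c))).card :=
    (Nat.le_of_mul_le_mul_left h5 (by norm_num)).trans (Nat.mul_le_mul_left _ h6)
  calc Q * (2 ^ (2 * q - 1) * (univ.filter
        (fun σ : Equiv.Perm (Fin q) => ev 𝓕 (xin σ))).card)
      ≤ Q * ((2 ^ i0 * (univ.filter (fun c : Fin q ⊕ Fin q → Bool =>
          par c = 1 ∧ ev 𝓕 (yin c))).card) *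
          (univ.filter (fun σ : Equiv.Perm (Fin q) => ev 𝓕 (xin σ))).card) :=
        Nat.mul_le_mul_left _ (Nat.mul_le_mul_right _ h8)
    _ = Q * (2 ^ i0 * (univ.filter (fun σ : Equiv.Perm (Fin q) => ev 𝓕 (xin σ))).card) *
          (univ.filter (fun c : Fin q ⊕ Fin q → Bool =>
          par c = 1 ∧ ev 𝓕 (yin c))).card := by ring
    _ ≤ 4 * B * q.factorial * (univ.filter (fun c : Fin q ⊕ Fin q → Bool =>
          par c = 1 ∧ ev 𝓕 (yin c))).card := Nat.mul_le_mul_right _ h9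
    _ = _ := by ring

/-- the numbers for `q = l ^ 8` -/
theorem app_numbers8 (l : ℕ) (hl : 2 ^ 38 ≤ l) :
    ∃ k : ℕ, 1 ≤ l ∧ 2 ≤ k ∧ 1 ≤ 32 * (6 * k) ^ 2 * l ^ 4 ∧
      l * (4 * (32 * (6 * k) ^ 2 * l ^ 4)) ≤ l ^ 8 - 2 * l ∧
      2 ^ (4 * l) * (terms (l ^ 8) l).card ≤ 2 ^ k := by
  set a := Nat.log 2 l + 1 with ha
  have hl0 : l ≠ 0 := by
    have : 0 < 2 ^ 38 := by positivity
    omega
  have ha39 : 39 ≤ a := by
    have : 38 ≤ Nat.log 2 l := by
      calc 38 = Nat.log 2 (2 ^ 38) := (Nat.log_pow (by norm_num) 38).symm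
        _ ≤ Nat.log 2 l := Nat.log_mono_right hl
    omega
  have hla : l < 2 ^ a := Nat.lt_pow_succ_log_self (by norm_num) l
  have hal : 2 ^ (a - 1) ≤ l := by
    rw [ha, Nat.add_sub_cancel]
    exact Nat.pow_log_le_self 2 hl0
  have hl1 : 1 ≤ l := by omega
  set k := 21 * a * l with hk
  have hk1 : 2 ≤ k := by
    rw [hk]
    nlinarith
  have hB1 : 1 ≤ 32 * (6 * k) ^ 2 * l ^ 4 := by
    have h1 : 0 < 32 * (6 * k) ^ 2 * l ^ 4 := by positivity
    exact h1
  refine ⟨k, hl1, hk1, hB1, ?_, ?_⟩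
  · apply Nat.le_sub_of_add_le
    have h1 := num_sq a ha39
    have h2 : l * (4 * (32 * (6 * k) ^ 2 * l ^ 4)) = 2032128 * a ^ 2 * l ^ 7 := by
      rw [hk]
      ring
    have h3 : 2 * l ≤ a ^ 2 * l ^ 7 := by
      calc 2 * l ≤ a ^ 2 * l := by
            apply Nat.mul_le_mul_right
            nlinarith
        _ ≤ a ^ 2 * l ^ 7 := by
            apply Nat.mul_le_mul_left
            calc l = l ^ 1 := (pow_one l).symm
              _ ≤ l ^ 7 := Nat.pow_le_pow_right hl1 (by norm_num)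
    calc l * (4 * (32 * (6 * k) ^ 2 * l ^ 4)) + 2 * l
        ≤ 2032128 * a ^ 2 * l ^ 7 + a ^ 2 * l ^ 7 := by omega
      _ = 2032129 * a ^ 2 * l ^ 7 := by ring
      _ ≤ (26615809 * a ^ 2) * l ^ 7 := by
          gcongr
          norm_num
      _ ≤ l * l ^ 7 := Nat.mul_le_mul_right _ (h1.trans hal)
      _ = l ^ 8 := by ring
  · -- the number of terms
    have h1 : (terms (l ^ 8) l).card ≤ 2 ^ (17 * a * l) := by
      calc (terms (l ^ 8) l).card ≤ ((l ^ 8) ^ 2 + 1) ^ l := card_terms _ _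
        _ ≤ (2 ^ (17 * a)) ^ l := by
            apply Nat.pow_le_pow_left
            calc (l ^ 8) ^ 2 + 1 = l ^ 16 + 1 := by ring
              _ ≤ (2 ^ a) ^ 16 + 1 :=
                  Nat.add_le_add_right (Nat.pow_le_pow_left hla.le 16) 1
              _ = 2 ^ (16 * a) + 1 := by rw [← pow_mul, mul_comm a 16]
              _ ≤ 2 ^ (16 * a) + 2 ^ (16 * a) := Nat.add_le_add_left Nat.one_le_two_pow _
              _ = 2 ^ (16 * a + 1) := by rw [pow_succ]; ring
              _ ≤ 2 ^ (17 * a) := Nat.pow_le_pow_right (by norm_num) (by omega)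
        _ = 2 ^ (17 * a * l) := by rw [← pow_mul]
    calc 2 ^ (4 * l) * (terms (l ^ 8) l).card ≤ 2 ^ (4 * l) * 2 ^ (17 * a * l) :=
          Nat.mul_le_mul_left _ h1
      _ = 2 ^ (4 * l + 17 * a * l) := by rw [← pow_add]
      _ ≤ 2 ^ k := by
          apply Nat.pow_le_pow_right (by norm_num)
          rw [hk]
          nlinarith

open Classical in
/-- the approximators are `l` times more often true on odd colourings than on perfect
matchings -/
def IsPOA (l q : ℕ) (𝒜 : Set ((Fin q × Fin q → Bool) → Prop)) : Prop :=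
  ∀ A ∈ 𝒜, (∀ w, A w) ∨
    l * (2 ^ (2 * q - 1) * (univ.filter (fun σ : Equiv.Perm (Fin q) => A (xin σ))).card) ≤
      q.factorial * (univ.filter (fun c : Fin q ⊕ Fin q → Bool =>
        par c = 1 ∧ A (yin c))).card

/-- the class of approximators with the amplified comparison -/
theorem exists_app_po8 (l : ℕ) (hl : 2 ^ 38 ≤ l) :
    ∃ 𝒜 : Set ((Fin (l ^ 8) × Fin (l ^ 8) → Bool) → Prop), IsApp l (l ^ 8) 𝒜 ∧
      IsPOA l (l ^ 8) 𝒜 := by
  classical
  obtain ⟨k, h1, h2, h3, h4, h5⟩ := app_numbers8 l hl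
  have hsun := sun (l ^ 8) l k (by omega)
  set B := 32 * (6 * k) ^ 2 * l ^ 4 with hB
  have hl64 : 64 ≤ l := le_trans (by norm_num) hl
  have h6 : 64 * B ≤ l ^ 8 - 2 * l := by
    refine le_trans ?_ h4
    have : 64 * B ≤ l * B := Nat.mul_le_mul_right _ hl64
    have h7 : l * B ≤ l * (4 * B) := Nat.mul_le_mul_left _ (by omega)
    omega
  refine ⟨_, isApp_cl h1 h2 h3 hsun h6 h5, ?_⟩
  rintro A ⟨𝓕, h𝓕, rfl⟩
  rcases po_amp h3 hsun h6 h𝓕 with h | h
  · exact Or.inl h
  · right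
    have hpos : 0 < 4 * B := by omega
    apply Nat.le_of_mul_le_mul_left _ hpos
    refine le_trans ?_ h
    refine le_trans (le_of_eq ?_) (Nat.mul_le_mul_right _ h4)
    ring

end Pool.Agent.NEGQ
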