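import Pool.Agent.Lib.MP_0087d5_lc.NEGQ.Emb

/-!
# The long chain

The windows are filled one after the other; between two phases the reservoirs go from perfect
matchings to cuts.
-/

set_option autoImplicit false

namespace Pool.Agent.NEGQ

open Finset Pool.Agent.NEG Pool.Agent.NEGS

/-- resampling one coordinate -/
theorem resample {I X : Type} [Fintype I] [DecidableEq I] [Fintype X] (F : (I → X) → ℝ) (i : I) :
    ∑ r : I → X, ∑ x : X, F (Function.update r i x) = Fintype.card X * ∑ r : I → X, F r := by
  classical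
  have hinv : Function.Involutive (fun p : (I → X) × X => (Function.update p.1 i p.2, p.1 i)) := by
    intro p
    simp
  calc ∑ r : I → X, ∑ x : X, F (Function.update r i x)
      = ∑ p : (I → X) × X, F (Function.update p.1 i p.2) := by rw [Fintype.sum_prod_type]
    _ = ∑ p : (I → X) × X, F p.1 := Equiv.sum_comp hinv.toPerm (fun p : (I → X) × X => F p.1)
    _ = Fintype.card X * ∑ r : I → X, F r := by
      rw [Fintype.sum_prod_type]
      simp only [sum_const, card_univ, nsmul_eq_mul]
      rw [mul_sum]

variable {q K L : ℕ}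

/-- odd colourings -/
abbrev Cl (q : ℕ) : Type := {c : Fin q ⊕ Fin q → Bool // par c = 1}

/-- the matrix of deficiency one above the cut -/
noncomputable def zc (c : Cl q) : Fin q × Fin q → Bool := (exists_z c.1 c.2).choose

theorem yin_le_zc (c : Cl q) (e : Fin q × Fin q) (h : yin c.1 e = true) : zc c e = true :=
  (exists_z c.1 c.2).choose_spec.1 e h

theorem hall_zc (c : Cl q) : Hall (zc c) := (exists_z c.1 c.2).choose_spec.2.1

theorem near_zc (c : Cl q) : Near (zc c) := (exists_z c.1 c.2).choose_spec.2.2

/-- the contents of the windows in phase `a` when the windows before `j` are filled -/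
def wc (τ : Fin K × Fin L → Equiv.Perm (Fin q)) (a j j' : ℕ) : Fin q × Fin q → Bool :=
  if h : a < K ∧ j' < L then
    (if j' < K ∨ L ≤ j' + K ∨ j' < j then fun _ => true else xin (τ (⟨a, h.1⟩, ⟨j', h.2⟩)))
  else fun _ => true

/-- the number of a reservoir -/
def lin (r : Fin K × Fin q) : ℕ := (finProdFinEquiv r : Fin (K * q))

theorem lin_inj {r r' : Fin K × Fin q} (h : lin r = lin r') : r = r' :=
  finProdFinEquiv.injective (Fin.ext h)

theorem lin_lt {r : Fin K × Fin q} {a : ℕ} : lin r < a * q ↔ (r.1 : ℕ) < a := by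
  unfold lin
  rw [finProdFinEquiv_apply_val]
  have h1 := r.2.2
  constructor
  · intro h
    by_contra h2
    push Not at h2
    have h3 : a * q ≤ r.1 * q := Nat.mul_le_mul_right q h2
    have h4 : (r.1 : ℕ) * q = q * r.1 := Nat.mul_comm _ _
    omega
  · intro h
    have h3 : (r.1 + 1 : ℕ) * q ≤ a * q := Nat.mul_le_mul_right q h
    have h4 : (r.1 + 1 : ℕ) * q = q * r.1 + q := by ring
    omega

/-- the contents of the reservoirs when the reservoirs before `b` are cut -/
noncomputable def vc (x : Fin K × Fin q → Equiv.Perm (Fin q)) (c : Fin K × Fin q → Cl q) (b : ℕ)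
    (r : Fin K × Fin q) : Fin q × Fin q → Bool :=
  if lin r < b then zc (c r) else xin (x r)

theorem wc_update (τ : Fin K × Fin L → Equiv.Perm (Fin q)) (a : Fin K) (j : Fin L) (hj1 : K ≤ (j : ℕ))
    (hj2 : (j : ℕ) + K < L) (s : Equiv.Perm (Fin q)) :
    wc (Function.update τ (a, j) s) a j = Function.update (wc τ a (j + 1)) j (xin s) := by
  funext j'
  by_cases h : j' = (j : ℕ)
  · subst h
    rw [Function.update_self]
    unfold wc
    rw [dif_pos ⟨a.2, j.2⟩, if_neg (by omega)]
    have h1 : ((⟨(a : ℕ), a.2⟩, ⟨(j : ℕ), j.2⟩) : Fin K × Fin L) = (a, j) := rfl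
    rw [h1, Function.update_self]
  · rw [Function.update_of_ne h]
    unfold wc
    by_cases h1 : (a : ℕ) < K ∧ j' < L
    · rw [dif_pos h1, dif_pos h1]
      by_cases h2 : j' < K ∨ L ≤ j' + K ∨ j' < (j : ℕ)
      · rw [if_pos h2, if_pos (by omega)]
      · rw [if_neg h2, if_neg (by omega), Function.update_of_ne]
        intro h3
        exact h (Fin.mk.inj (Prod.mk.inj h3).2)
    · rw [dif_neg h1, dif_neg h1]

theorem wc_update' (τ : Fin K × Fin L → Equiv.Perm (Fin q)) (a : Fin K) (j : Fin L) (s : Equiv.Perm (Fin q)) :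
    wc (Function.update τ (a, j) s) a (j + 1) = Function.update (wc τ a (j + 1)) j (fun _ => true) := by
  funext j'
  by_cases h : j' = (j : ℕ)
  · subst h
    rw [Function.update_self]
    unfold wc
    rw [dif_pos ⟨a.2, j.2⟩, if_pos (by omega)]
  · rw [Function.update_of_ne h]
    unfold wc
    by_cases h1 : (a : ℕ) < K ∧ j' < L
    · rw [dif_pos h1, dif_pos h1]
      by_cases h2 : j' < K ∨ L ≤ j' + K ∨ j' < (j : ℕ) + 1
      · rw [if_pos h2, if_pos h2]
      · rw [if_neg h2, if_neg h2, Function.update_of_ne]
        intro h3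
        exact h (Fin.mk.inj (Prod.mk.inj h3).2)
    · rw [dif_neg h1, dif_neg h1]

theorem vc_update (x : Fin K × Fin q → Equiv.Perm (Fin q)) (c : Fin K × Fin q → Cl q)
    (r : Fin K × Fin q) (s : Equiv.Perm (Fin q)) :
    vc (Function.update x r s) c (lin r) = Function.update (vc x c (lin r)) r (xin s) := by
  funext r'
  by_cases h : r' = r
  · subst h
    rw [Function.update_self]
    unfold vc
    rw [if_neg (lt_irrefl _), Function.update_self]
  · rw [Function.update_of_ne h]
    unfold vc
    rw [Function.update_of_ne h]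

theorem vc_update' (x : Fin K × Fin q → Equiv.Perm (Fin q)) (c : Fin K × Fin q → Cl q)
    (r : Fin K × Fin q) (z : Cl q) :
    vc x (Function.update c r z) (lin r + 1) = Function.update (vc x c (lin r)) r (zc z) := by
  funext r'
  by_cases h : r' = r
  · subst h
    rw [Function.update_self]
    unfold vc
    rw [if_pos (Nat.lt_succ_self _), Function.update_self]
  · rw [Function.update_of_ne h]
    unfold vc
    rw [Function.update_of_ne h]
    have h1 : lin r' ≠ lin r := fun h' => h (lin_inj h')
    by_cases h2 : lin r' < lin r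
    · rw [if_pos h2, if_pos (by omega)]
    · rw [if_neg h2, if_neg (by omega)]

/-- the real number of a truth value -/
def ind (b : Bool) : ℝ := cond b 1 0

theorem ind_nonneg (b : Bool) : 0 ≤ ind b := by
  cases b
  · exact le_refl _
  · exact zero_le_one

theorem ind_le_one (b : Bool) : ind b ≤ 1 := by
  cases b
  · exact zero_le_one
  · exact le_refl _

theorem ind_mono {a b : Bool} (h : a = true → b = true) : ind a ≤ ind b := by
  cases a
  · exact ind_nonneg b
  · rw [h rfl]

theorem card_ind {X : Type} [Fintype X] (f : X → Bool) :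
    ((univ.filter fun x => f x = true).card : ℝ) = ∑ x, ind (f x) := by
  rw [card_filter]
  push_cast
  refine sum_congr rfl fun x _ => ?_
  cases f x <;> simp [ind]

section Chain

variable {n : ℕ} {R : Type} [DecidableEq R] (e : Fin n ≃ Vx q K L ⊕ R)

/-- the state as a matrix of size `n` -/
noncomputable def St (a j b : ℕ) (τ : Fin K × Fin L → Equiv.Perm (Fin q))
    (x : Fin K × Fin q → Equiv.Perm (Fin q)) (c : Fin K × Fin q → Cl q) : Fin n × Fin n → Bool :=
  big true false e (gmat true false (a + 1) (wc τ a j) (vc x c b))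

/-- the number of samples for which the function is one -/
noncomputable def cnt (u : (Fin n × Fin n → Bool) → Bool) (a j b : ℕ) : ℝ :=
  ∑ τ : Fin K × Fin L → Equiv.Perm (Fin q), ∑ x : Fin K × Fin q → Equiv.Perm (Fin q),
    ∑ c : Fin K × Fin q → Cl q, ind (u (St e a j b τ x c))

/-- the number of samples -/
noncomputable def tot (q K L : ℕ) : ℝ :=
  Fintype.card (Fin K × Fin L → Equiv.Perm (Fin q)) * (Fintype.card (Fin K × Fin q → Equiv.Perm (Fin q)) *
    Fintype.card (Fin K × Fin q → Cl q))

theorem cnt_le_tot (u : (Fin n × Fin n → Bool) → Bool) (a j b : ℕ) : cnt e u a j b ≤ tot q K L := by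
  unfold cnt tot
  calc ∑ τ : Fin K × Fin L → Equiv.Perm (Fin q), ∑ x : Fin K × Fin q → Equiv.Perm (Fin q),
        ∑ c : Fin K × Fin q → Cl q, ind (u (St e a j b τ x c))
      ≤ ∑ τ : Fin K × Fin L → Equiv.Perm (Fin q), ∑ x : Fin K × Fin q → Equiv.Perm (Fin q),
        ∑ c : Fin K × Fin q → Cl q, (1 : ℝ) :=
        sum_le_sum fun _ _ => sum_le_sum fun _ _ => sum_le_sum fun _ _ => ind_le_one _
    _ = _ := by simp only [sum_const, card_univ, nsmul_eq_mul, mul_one]

theorem cnt_nonneg (u : (Fin n × Fin n → Bool) → Bool) (a j b : ℕ) : 0 ≤ cnt e u a j b :=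
  sum_nonneg fun _ _ => sum_nonneg fun _ _ => sum_nonneg fun _ _ => ind_nonneg _

/-- real steps increase the count -/
theorem cnt_mono (u : (Fin n × Fin n → Bool) → Bool)
    (hu : ∀ x y, (∀ e, x e = true → y e = true) → u x = true → u y = true) {a j b a' j' b' : ℕ}
    (h : ∀ τ x c f, St e a j b τ x c f = true → St e a' j' b' τ x c f = true) :
    cnt e u a j b ≤ cnt e u a' j' b' :=
  sum_le_sum fun τ _ => sum_le_sum fun x _ => sum_le_sum fun c _ => ind_mono (hu _ _ (h τ x c))

theorem St_window {a j b : ℕ} (τ : Fin K × Fin L → Equiv.Perm (Fin q))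
    (x : Fin K × Fin q → Equiv.Perm (Fin q)) (c : Fin K × Fin q → Cl q) (f : Fin n × Fin n)
    (h : St e a j b τ x c f = true) : St e a (j + 1) b τ x c f = true := by
  refine big_mono e _ _ (fun y hy => gmat_mono _ _ _ _ _ ?_ (fun _ _ h => h) y hy) f h
  intro j' y hy
  unfold wc at hy ⊢
  by_cases h1 : a < K ∧ j' < L
  · rw [dif_pos h1] at hy ⊢
    by_cases h2 : j' < K ∨ L ≤ j' + K ∨ j' < j + 1
    · rw [if_pos h2]
    · rw [if_neg h2]
      rw [if_neg (by omega)] at hy
      exact hy
  · rw [dif_neg h1]

theorem St_phase {a j b j' : ℕ} (τ : Fin K × Fin L → Equiv.Perm (Fin q))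
    (x : Fin K × Fin q → Equiv.Perm (Fin q)) (c : Fin K × Fin q → Cl q) (f : Fin n × Fin n)
    (h : St e a j b τ x c f = true) : St e (a + 1) j' b τ x c f = true :=
  big_mono e _ _ (fun y hy => gmat_phase _ _ _ _ y hy) f h

/-- the evaluation of a state with a free reservoir -/
theorem pl_free_reservoir (a : ℕ) (w : ℕ → Fin q × Fin q → Bool) (v : Fin K × Fin q → Fin q × Fin q → Bool)
    (r : Fin K × Fin q) (y : Fin q × Fin q → Bool) :
    pl (big (.inr true) (.inr false) e (gmat (.inr true) (.inr false) a (fun j' y => .inr (w j' y))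
        (Function.update (fun r' y => (.inr (v r' y) : (Fin q × Fin q) ⊕ Bool)) r (fun y => .inl y)))) y =
      big true false e (gmat true false a w (Function.update v r y)) := by
  funext b
  have h1 : ∀ f : Fin n × Fin n → (Fin q × Fin q) ⊕ Bool, pl f y b = (Sum.elim y id) (f b) := by
    intro f
    unfold pl
    cases f b <;> rfl
  rw [h1, big_map (Sum.elim y id)]
  congr 1
  funext z
  rw [gmat_map (Sum.elim y id)]
  have h2 : (fun (r' : Fin K × Fin q) (z : Fin q × Fin q) => (Sum.elim y id : (Fin q × Fin q) ⊕ Bool → Bool)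
      (Function.update (fun r' y => (.inr (v r' y) : (Fin q × Fin q) ⊕ Bool)) r (fun y => .inl y) r' z)) =
      Function.update v r y := by
    funext r' z
    by_cases h3 : r' = r
    · subst h3
      rw [Function.update_self, Function.update_self]
      rfl
    · rw [Function.update_of_ne h3, Function.update_of_ne h3]
      rfl
  rw [h2]
  rfl

/-- the evaluation of a state with a free window -/
theorem pl_free_window (a : ℕ) (w : ℕ → Fin q × Fin q → Bool) (v : Fin K × Fin q → Fin q × Fin q → Bool)
    (j : ℕ) (y : Fin q × Fin q → Bool) :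
    pl (big (.inr true) (.inr false) e (gmat (.inr true) (.inr false) a
        (Function.update (fun j' y => (.inr (w j' y) : (Fin q × Fin q) ⊕ Bool)) j (fun y => .inl y))
        (fun r' y => .inr (v r' y)))) y =
      big true false e (gmat true false a (Function.update w j y) v) := by
  funext b
  have h1 : ∀ f : Fin n × Fin n → (Fin q × Fin q) ⊕ Bool, pl f y b = (Sum.elim y id) (f b) := by
    intro f
    unfold pl
    cases f b <;> rfl
  rw [h1, big_map (Sum.elim y id)]
  congr 1
  funext z
  rw [gmat_map (Sum.elim y id)]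
  have h2 : (fun (j' : ℕ) (z : Fin q × Fin q) => (Sum.elim y id : (Fin q × Fin q) ⊕ Bool → Bool)
      (Function.update (fun j' y => (.inr (w j' y) : (Fin q × Fin q) ⊕ Bool)) j (fun y => .inl y) j' z)) =
      Function.update w j y := by
    funext j' z
    by_cases h3 : j' = j
    · subst h3
      rw [Function.update_self, Function.update_self]
      rfl
    · rw [Function.update_of_ne h3, Function.update_of_ne h3]
      rfl
  rw [h2]
  rfl

/-- the steps at the reservoirs -/
theorem cnt_reservoir (u : (Fin n × Fin n → Bool) → Bool)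
    (hu : ∀ x y, (∀ e, x e = true → y e = true) → u x = true → u y = true) {ε : ℝ}
    (hR : ∀ f : Fin n × Fin n → (Fin q × Fin q) ⊕ Bool,
      ((univ.filter fun s : Equiv.Perm (Fin q) => u (pl f (xin s)) = true).card : ℝ) * Fintype.card (Cl q) ≤
        ((univ.filter fun c : Cl q => u (pl f (yin c.1)) = true).card : ℝ) * q.factorial +
          ε * (q.factorial * Fintype.card (Cl q)))
    (hCl : 0 < Fintype.card (Cl q)) (a j : ℕ) (r : Fin K × Fin q) :
    cnt e u a j (lin r) ≤ cnt e u a j (lin r + 1) + ε * tot q K L := by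
  classical
  have hq : Fintype.card (Equiv.Perm (Fin q)) = q.factorial := by
    rw [Fintype.card_perm, Fintype.card_fin]
  have hq0 : (0 : ℝ) < q.factorial := Nat.cast_pos.2 (Nat.factorial_pos q)
  have hC0 : (0 : ℝ) < Fintype.card (Cl q) := Nat.cast_pos.2 hCl
  -- the state with a free reservoir
  let g : (Fin K × Fin L → Equiv.Perm (Fin q)) → (Fin K × Fin q → Equiv.Perm (Fin q)) →
      (Fin K × Fin q → Cl q) → (Fin q × Fin q → Bool) → ℝ := fun τ x c y =>
    ind (u (big true false e (gmat true false (a + 1) (wc τ a j) (Function.update (vc x c (lin r)) r y))))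
  have hg1 : ∀ τ x c s, ind (u (St e a j (lin r) τ (Function.update x r s) c)) = g τ x c (xin s) := by
    intro τ x c s
    simp only [g, St]
    rw [vc_update]
  have hg2 : ∀ τ x c z, ind (u (St e a j (lin r + 1) τ x (Function.update c r z))) = g τ x c (zc z) := by
    intro τ x c z
    simp only [g, St]
    rw [vc_update']
  have key : ∀ τ x c, (∑ s : Equiv.Perm (Fin q), g τ x c (xin s)) * Fintype.card (Cl q) ≤
      (∑ z : Cl q, g τ x c (zc z)) * q.factorial + ε * (q.factorial * Fintype.card (Cl q)) := by
    intro τ x c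
    have h1 := hR (big (.inr true) (.inr false) e (gmat (.inr true) (.inr false) (a + 1)
      (fun j' y => .inr (wc τ a j j' y))
      (Function.update (fun r' y => .inr (vc x c (lin r) r' y)) r (fun y => .inl y))))
    rw [card_ind, card_ind] at h1
    simp only [pl_free_reservoir] at h1
    refine h1.trans (add_le_add_left (mul_le_mul_of_nonneg_right (sum_le_sum fun z _ => ?_) hq0.le) _)
    refine ind_mono (hu _ _ fun b hb => ?_)
    refine big_mono e _ _ (fun y hy => gmat_mono _ _ _ _ _ (fun _ _ h => h) ?_ y hy) b hb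
    intro r' y hy
    by_cases h3 : r' = r
    · subst h3
      rw [Function.update_self] at hy ⊢
      exact yin_le_zc z y hy
    · rw [Function.update_of_ne h3] at hy ⊢
      exact hy
  -- summation over the samples
  have hA : (q.factorial : ℝ) * cnt e u a j (lin r) =
      ∑ τ : Fin K × Fin L → Equiv.Perm (Fin q), ∑ x : Fin K × Fin q → Equiv.Perm (Fin q),
        ∑ c : Fin K × Fin q → Cl q, ∑ s : Equiv.Perm (Fin q), g τ x c (xin s) := by
    unfold cnt
    rw [mul_sum]
    refine sum_congr rfl fun τ _ => ?_
    rw [← hq, ← resample (fun x => ∑ c : Fin K × Fin q → Cl q, ind (u (St e a j (lin r) τ x c))) r]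
    refine sum_congr rfl fun x _ => ?_
    rw [sum_comm]
    exact sum_congr rfl fun c _ => sum_congr rfl fun s _ => hg1 τ x c s
  have hB : (Fintype.card (Cl q) : ℝ) * cnt e u a j (lin r + 1) =
      ∑ τ : Fin K × Fin L → Equiv.Perm (Fin q), ∑ x : Fin K × Fin q → Equiv.Perm (Fin q),
        ∑ c : Fin K × Fin q → Cl q, ∑ z : Cl q, g τ x c (zc z) := by
    unfold cnt
    rw [mul_sum]
    refine sum_congr rfl fun τ _ => ?_
    rw [mul_sum]
    refine sum_congr rfl fun x _ => ?_
    rw [← resample (fun c : Fin K × Fin q → Cl q => ind (u (St e a j (lin r + 1) τ x c))) r]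
    exact sum_congr rfl fun c _ => sum_congr rfl fun z _ => hg2 τ x c z
  have hC : ((q.factorial : ℝ) * cnt e u a j (lin r)) * Fintype.card (Cl q) ≤
      ((Fintype.card (Cl q) : ℝ) * cnt e u a j (lin r + 1)) * q.factorial +
        ε * (q.factorial * Fintype.card (Cl q)) * tot q K L := by
    rw [hA, hB]
    have h1 : ε * (q.factorial * Fintype.card (Cl q)) * tot q K L =
        ∑ τ : Fin K × Fin L → Equiv.Perm (Fin q), ∑ x : Fin K × Fin q → Equiv.Perm (Fin q),
        ∑ c : Fin K × Fin q → Cl q, ε * (q.factorial * Fintype.card (Cl q)) := by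
      unfold tot
      simp only [sum_const, card_univ, nsmul_eq_mul]
      ring
    rw [h1, sum_mul, sum_mul, ← sum_add_distrib]
    refine sum_le_sum fun τ _ => ?_
    rw [sum_mul, sum_mul, ← sum_add_distrib]
    refine sum_le_sum fun x _ => ?_
    rw [sum_mul, sum_mul, ← sum_add_distrib]
    exact sum_le_sum fun c _ => key τ x c
  have hD : cnt e u a j (lin r) * (q.factorial * Fintype.card (Cl q)) ≤
      (cnt e u a j (lin r + 1) + ε * tot q K L) * (q.factorial * Fintype.card (Cl q)) := by
    calc cnt e u a j (lin r) * (q.factorial * Fintype.card (Cl q))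
        = ((q.factorial : ℝ) * cnt e u a j (lin r)) * Fintype.card (Cl q) := by ring
      _ ≤ _ := hC
      _ = _ := by ring
  exact le_of_mul_le_mul_right hD (by positivity)

/-- all reservoirs of a phase -/
theorem cnt_reservoirs (u : (Fin n × Fin n → Bool) → Bool)
    (hu : ∀ x y, (∀ e, x e = true → y e = true) → u x = true → u y = true) {ε : ℝ}
    (hR : ∀ f : Fin n × Fin n → (Fin q × Fin q) ⊕ Bool,
      ((univ.filter fun s : Equiv.Perm (Fin q) => u (pl f (xin s)) = true).card : ℝ) * Fintype.card (Cl q) ≤
        ((univ.filter fun c : Cl q => u (pl f (yin c.1)) = true).card : ℝ) * q.factorial +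
          ε * (q.factorial * Fintype.card (Cl q)))
    (hCl : 0 < Fintype.card (Cl q)) (a j b d : ℕ) (hbd : b + d ≤ K * q) :
    cnt e u a j b ≤ cnt e u a j (b + d) + d * (ε * tot q K L) := by
  induction d with
  | zero =>
    rw [Nat.add_zero, Nat.cast_zero, zero_mul, add_zero]
  | succ d ih =>
    have h1 := ih (by omega)
    have h2 := cnt_reservoir e u hu hR hCl a j (finProdFinEquiv.symm ⟨b + d, by omega⟩)
    have h3 : lin (finProdFinEquiv.symm ⟨b + d, by omega⟩ : Fin K × Fin q) = b + d := by
      unfold lin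
      rw [Equiv.apply_symm_apply]
    rw [h3] at h2
    have h4 : b + (d + 1) = b + d + 1 := rfl
    rw [h4]
    push_cast
    linarith

end Chain

end Pool.Agent.NEGQ
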