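import Pool.Agent.Lib.MP_0087d5_lc.NEGQ.PickQ

/-!
# The choice of a window

A window and a context in which few of the functions move.
-/

set_option autoImplicit false

namespace Pool.Agent.NEGQ

open Finset Pool.Agent.NEG Pool.Agent.NEGS

variable {q K L : ℕ}

theorem pmx_true : PMx (fun _ : Fin q × Fin q => true) := ⟨1, fun _ => rfl⟩

theorem pmx_xin (s : Equiv.Perm (Fin q)) : PMx (xin s) := ⟨s, fun x => by simp [xin]⟩

theorem pmx_wc (τ : Fin K × Fin L → Equiv.Perm (Fin q)) (a j j' : ℕ) : PMx (wc τ a j j') := by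
  unfold wc
  by_cases h1 : a < K ∧ j' < L
  · rw [dif_pos h1]
    by_cases h2 : j' < K ∨ L ≤ j' + K ∨ j' < j
    · rw [if_pos h2]
      exact pmx_true
    · rw [if_neg h2]
      exact pmx_xin _
  · rw [dif_neg h1]
    exact pmx_true

section Chain

variable {n : ℕ} {R : Type} [DecidableEq R] (e : Fin n ≃ Vx q K L ⊕ R)

/-- the big matrix has a perfect matching if and only if the critical window has one -/
theorem critical (a j : ℕ) (ha : a < K) (hj1 : K ≤ j) (hj2 : j + K < L)
    (τ : Fin K × Fin L → Equiv.Perm (Fin q)) (x : Fin K × Fin q → Equiv.Perm (Fin q))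
    (c : Fin K × Fin q → Cl q) (y : Fin q × Fin q → Bool) :
    BPM n (big true false e (gmat true false (a + 1) (Function.update (wc τ a (j + 1)) j y)
      (vc x c ((a + 1) * q)))) ↔ BPM q y := by
  rw [big_pm]
  constructor
  · intro h
    have h1 := pm_window (a + 1) j ha hj1 hj2 _ _ (fun r hr => by
      unfold vc
      rw [if_pos (lin_lt.2 hr)]
      exact hall_zc _) h
    rw [Function.update_self] at h1
    exact h1
  · intro h
    refine pm_of (a + 1) ha (by omega) _ _ (fun j' _ => ?_) (fun r hr => ?_) fun r hr => ?_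
    · by_cases h1 : j' = j
      · subst h1
        rw [Function.update_self]
        exact h
      · rw [Function.update_of_ne h1]
        exact pmx_wc τ a (j + 1) j'
    · unfold vc
      rw [if_neg (fun h1 => absurd (lin_lt.1 h1) (not_lt.2 hr))]
      exact pmx_xin _
    · unfold vc
      rw [if_pos (lin_lt.2 hr)]
      exact near_zc _

/-- the total increase of the counts over all windows -/
theorem sum_phases (u : (Fin n × Fin n → Bool) → Bool)
    (hu : ∀ x y, (∀ e, x e = true → y e = true) → u x = true → u y = true) {ε : ℝ}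
    (hR : ∀ f : Fin n × Fin n → (Fin q × Fin q) ⊕ Bool,
      ((univ.filter fun s : Equiv.Perm (Fin q) => u (pl f (xin s)) = true).card : ℝ) * Fintype.card (Cl q) ≤
        ((univ.filter fun c : Cl q => u (pl f (yin c.1)) = true).card : ℝ) * q.factorial +
          ε * (q.factorial * Fintype.card (Cl q)))
    (hCl : 0 < Fintype.card (Cl q)) (j1 j2 : ℕ) (m : ℕ) (hm : m + 1 ≤ K) :
    ∑ a ∈ range (m + 1), (cnt e u a j2 ((a + 1) * q) - cnt e u a j1 ((a + 1) * q)) ≤
      cnt e u m j2 ((m + 1) * q) + m * (q * (ε * tot q K L)) := by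
  induction m with
  | zero =>
    rw [sum_range_one, Nat.cast_zero, zero_mul, add_zero]
    have h1 := cnt_nonneg e u 0 j1 ((0 + 1) * q)
    linarith
  | succ m ih =>
    rw [sum_range_succ]
    have h1 := ih (by omega)
    have h2 : cnt e u m j2 ((m + 1) * q) ≤ cnt e u (m + 1) j1 ((m + 1) * q) :=
      cnt_mono e u hu fun τ x c f h => St_phase e τ x c f h
    have h3 := cnt_reservoirs e u hu hR hCl (m + 1) j1 ((m + 1) * q) q (by
      have h4 : (m + 1 + 1) * q ≤ K * q := Nat.mul_le_mul_right q hm
      have h5 : (m + 1 + 1) * q = (m + 1) * q + q := by ring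
      omega)
    have h4 : (m + 1) * q + q = (m + 1 + 1) * q := by ring
    rw [h4] at h3
    push_cast
    linarith

/-- the sum over the windows of one phase -/
theorem sum_windows (u : (Fin n × Fin n → Bool) → Bool) (a b d : ℕ) :
    ∑ i ∈ range d, (cnt e u a (K + i + 1) b - cnt e u a (K + i) b) = cnt e u a (K + d) b - cnt e u a K b := by
  induction d with
  | zero => simp
  | succ d ih =>
    rw [sum_range_succ, ih]
    have h : K + (d + 1) = K + d + 1 := rfl
    rw [h]
    ring

include e in
open Classical in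
/-- **The choice of a window and of a context.** -/
theorem pickQ {ι : Type} [Fintype ι] (hL : 2 * K < L) (hK : 0 < K)
    (hN : 16 * Fintype.card ι ≤ K * (L - 2 * K)) (u : ι → (Fin n × Fin n → Bool) → Bool)
    (hu : ∀ k x y, (∀ e, x e = true → y e = true) → u k x = true → u k y = true) {ε : ℝ}
    (hε : K * q * ε ≤ 1)
    (hR : ∀ k, ∀ f : Fin n × Fin n → (Fin q × Fin q) ⊕ Bool,
      ((univ.filter fun s : Equiv.Perm (Fin q) => u k (pl f (xin s)) = true).card : ℝ) * Fintype.card (Cl q) ≤
        ((univ.filter fun c : Cl q => u k (pl f (yin c.1)) = true).card : ℝ) * q.factorial +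
          ε * (q.factorial * Fintype.card (Cl q)))
    (hCl : 0 < Fintype.card (Cl q)) :
    ∃ f : Fin n × Fin n → (Fin q × Fin q) ⊕ Bool, (∀ y, BPM n (pl f y) ↔ BPM q y) ∧
      8 * (univ.filter fun p : ι × Equiv.Perm (Fin q) =>
        u p.1 (pl f (xin p.2)) = false ∧ u p.1 (pl f (fun _ => true)) = true).card ≤ q.factorial := by
  have hq : Fintype.card (Equiv.Perm (Fin q)) = q.factorial := by
    rw [Fintype.card_perm, Fintype.card_fin]
  have htot : 0 < tot q K L := by
    unfold tot
    have : Nonempty (Cl q) := Fintype.card_pos_iff.1 hCl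
    have h1 : 0 < Fintype.card (Fin K × Fin L → Equiv.Perm (Fin q)) := Fintype.card_pos
    have h2 : 0 < Fintype.card (Fin K × Fin q → Equiv.Perm (Fin q)) := Fintype.card_pos
    have h3 : 0 < Fintype.card (Fin K × Fin q → Cl q) := Fintype.card_pos
    positivity
  -- the change at a window
  let D : ℕ → ℕ → ℝ := fun a i => ∑ k, (cnt e (u k) a (K + i + 1) ((a + 1) * q) - cnt e (u k) a (K + i) ((a + 1) * q))
  have hsum : ∑ a ∈ range K, ∑ i ∈ range (L - 2 * K), D a i ≤ Fintype.card ι * (2 * tot q K L) := by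
    have h1 : ∀ k, ∑ a ∈ range K, ∑ i ∈ range (L - 2 * K),
        (cnt e (u k) a (K + i + 1) ((a + 1) * q) - cnt e (u k) a (K + i) ((a + 1) * q)) ≤ 2 * tot q K L := by
      intro k
      simp_rw [sum_windows e (u k)]
      obtain ⟨m, rfl⟩ : ∃ m, K = m + 1 := ⟨K - 1, by omega⟩
      refine (sum_phases e (u k) (hu k) (hR k) hCl _ _ m le_rfl).trans ?_
      have h2 := cnt_le_tot e (u k) m (m + 1 + (L - 2 * (m + 1))) ((m + 1) * q)
      rcases le_or_gt 0 ε with h0 | h0
      · have h3 : (m : ℝ) * (q * (ε * tot q (m + 1) L)) ≤ tot q (m + 1) L := by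
          calc (m : ℝ) * (q * (ε * tot q (m + 1) L)) = (m * q * ε) * tot q (m + 1) L := by ring
            _ ≤ 1 * tot q (m + 1) L := by
              refine mul_le_mul_of_nonneg_right (le_trans ?_ hε) htot.le
              push_cast
              have : 0 ≤ (q : ℝ) * ε := mul_nonneg (Nat.cast_nonneg _) h0
              nlinarith
            _ = tot q (m + 1) L := one_mul _
        linarith
      · have h3 : (m : ℝ) * (q * (ε * tot q (m + 1) L)) ≤ 0 := by
          have h4 : (m : ℝ) * (q * (ε * tot q (m + 1) L)) = -(m * q * (-ε) * tot q (m + 1) L) := by ring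
          rw [h4]
          have h5 : 0 ≤ (m : ℝ) * q * (-ε) * tot q (m + 1) L := by
            have : 0 < -ε := by linarith
            positivity
          linarith
        linarith
    calc ∑ a ∈ range K, ∑ i ∈ range (L - 2 * K), D a i
        = ∑ k, ∑ a ∈ range K, ∑ i ∈ range (L - 2 * K),
          (cnt e (u k) a (K + i + 1) ((a + 1) * q) - cnt e (u k) a (K + i) ((a + 1) * q)) := by
          simp only [D]
          exact (sum_congr rfl fun a _ => sum_comm).trans sum_comm
      _ ≤ ∑ _k : ι, 2 * tot q K L := sum_le_sum fun k _ => h1 k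
      _ = Fintype.card ι * (2 * tot q K L) := by rw [sum_const, card_univ, nsmul_eq_mul]
  obtain ⟨a, ha, i, hi, hD⟩ : ∃ a, a < K ∧ ∃ i, i < L - 2 * K ∧ 8 * D a i ≤ tot q K L := by
    by_contra hcon
    push Not at hcon
    have h1 : ∑ a ∈ range K, ∑ i ∈ range (L - 2 * K), tot q K L <
        ∑ a ∈ range K, ∑ i ∈ range (L - 2 * K), 8 * D a i := by
      refine sum_lt_sum_of_nonempty (nonempty_range_iff.2 hK.ne') fun a ha => ?_
      refine sum_lt_sum_of_nonempty (nonempty_range_iff.2 (by omega)) fun i hi => ?_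
      exact hcon a (mem_range.1 ha) i (mem_range.1 hi)
    simp only [← mul_sum, sum_const, card_range, nsmul_eq_mul] at h1
    have h2 : ((16 * Fintype.card ι : ℕ) : ℝ) ≤ ((K * (L - 2 * K) : ℕ) : ℝ) := Nat.cast_le.2 hN
    push_cast [Nat.cast_sub (show 2 * K ≤ L by omega)] at h2 h1
    have h3 : (16 * (Fintype.card ι : ℝ)) * tot q K L ≤ (K * ((L : ℝ) - 2 * K)) * tot q K L :=
      mul_le_mul_of_nonneg_right h2 htot.le
    nlinarith
  have hjL : K + i < L := by omega
  set j : Fin L := ⟨K + i, hjL⟩ with hj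
  set a' : Fin K := ⟨a, ha⟩ with ha'
  set b : ℕ := (a + 1) * q with hb
  -- the state with a free window
  let M : (Fin K × Fin L → Equiv.Perm (Fin q)) → (Fin K × Fin q → Equiv.Perm (Fin q)) →
      (Fin K × Fin q → Cl q) → (Fin q × Fin q → Bool) → (Fin n × Fin n → Bool) := fun τ x c y =>
    big true false e (gmat true false (a + 1) (Function.update (wc τ a (K + i + 1)) (K + i) y) (vc x c b))
  let H : (Fin K × Fin L → Equiv.Perm (Fin q)) → (Fin K × Fin q → Equiv.Perm (Fin q)) →
      (Fin K × Fin q → Cl q) → ℝ := fun τ x c =>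
    ∑ k, ∑ s : Equiv.Perm (Fin q), ind (!(u k (M τ x c (xin s))) && u k (M τ x c (fun _ => true)))
  have hHD : ∑ τ, ∑ x, ∑ c, H τ x c = q.factorial * D a i := by
    simp only [H, D]
    rw [mul_sum]
    have h1 : ∀ k, (q.factorial : ℝ) * (cnt e (u k) a (K + i + 1) ((a + 1) * q) - cnt e (u k) a (K + i) ((a + 1) * q)) =
        ∑ τ, ∑ x, ∑ c, ∑ s : Equiv.Perm (Fin q), ind (!(u k (M τ x c (xin s))) && u k (M τ x c (fun _ => true))) := by
      intro k
      have h2 : cnt e (u k) a (K + i + 1) ((a + 1) * q) - cnt e (u k) a (K + i) ((a + 1) * q) =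
          ∑ τ, ∑ x, ∑ c, ind (!(u k (St e a (K + i) b τ x c)) && u k (St e a (K + i + 1) b τ x c)) := by
        unfold cnt
        rw [← sum_sub_distrib]
        refine sum_congr rfl fun τ _ => ?_
        rw [← sum_sub_distrib]
        refine sum_congr rfl fun x _ => ?_
        rw [← sum_sub_distrib]
        refine sum_congr rfl fun c _ => ?_
        have h3 := hu k _ _ (fun f hf => St_window e (a := a) (j := K + i) (b := b) τ x c f hf)
        cases h4 : u k (St e a (K + i) b τ x c) <;> cases h5 : u k (St e a (K + i + 1) b τ x c)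
        · simp [ind]
        · simp [ind]
        · rw [h3 h4] at h5
          exact absurd h5 (by decide)
        · simp [ind]
      rw [h2, ← hq, ← resample (fun τ => ∑ x, ∑ c,
        ind (!(u k (St e a (K + i) b τ x c)) && u k (St e a (K + i + 1) b τ x c))) (a', j)]
      refine sum_congr rfl fun τ _ => ?_
      rw [sum_comm]
      refine sum_congr rfl fun x _ => ?_
      rw [sum_comm]
      refine sum_congr rfl fun c _ => sum_congr rfl fun s _ => ?_
      have h3 := wc_update τ a' j (show K ≤ K + i by omega) (show K + i + K < L by omega) s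
      have h4 := wc_update' τ a' j s
      simp only [M, St]
      change wc (Function.update τ (a', j) s) a (K + i) = _ at h3
      change wc (Function.update τ (a', j) s) a (K + i + 1) = _ at h4
      rw [h3, h4]
    rw [sum_congr rfl fun k _ => h1 k]
    calc ∑ τ, ∑ x, ∑ c, ∑ k, ∑ s : Equiv.Perm (Fin q), ind (!(u k (M τ x c (xin s))) && u k (M τ x c (fun _ => true)))
        = ∑ τ, ∑ x, ∑ k, ∑ c, ∑ s : Equiv.Perm (Fin q),
            ind (!(u k (M τ x c (xin s))) && u k (M τ x c (fun _ => true))) :=
          sum_congr rfl fun τ _ => sum_congr rfl fun x _ => sum_comm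
      _ = ∑ τ, ∑ k, ∑ x, ∑ c, ∑ s : Equiv.Perm (Fin q),
            ind (!(u k (M τ x c (xin s))) && u k (M τ x c (fun _ => true))) :=
          sum_congr rfl fun τ _ => sum_comm
      _ = _ := sum_comm
  obtain ⟨τ, x, c, hω⟩ : ∃ τ x c, 8 * H τ x c ≤ q.factorial := by
    by_contra hcon
    push Not at hcon
    have : Nonempty (Cl q) := Fintype.card_pos_iff.1 hCl
    have h1 : ∑ τ : Fin K × Fin L → Equiv.Perm (Fin q), ∑ x : Fin K × Fin q → Equiv.Perm (Fin q),
        ∑ c : Fin K × Fin q → Cl q, (q.factorial : ℝ) < ∑ τ, ∑ x, ∑ c, 8 * H τ x c :=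
      sum_lt_sum_of_nonempty univ_nonempty fun τ _ =>
        sum_lt_sum_of_nonempty univ_nonempty fun x _ =>
          sum_lt_sum_of_nonempty univ_nonempty fun c _ => hcon τ x c
    simp only [← mul_sum] at h1
    rw [hHD] at h1
    have h2 : ∑ τ : Fin K × Fin L → Equiv.Perm (Fin q), ∑ x : Fin K × Fin q → Equiv.Perm (Fin q),
        ∑ c : Fin K × Fin q → Cl q, (q.factorial : ℝ) = q.factorial * tot q K L := by
      unfold tot
      simp only [sum_const, card_univ, nsmul_eq_mul]
      ring
    rw [h2] at h1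
    have hq0 : (0 : ℝ) < q.factorial := Nat.cast_pos.2 (Nat.factorial_pos q)
    nlinarith
  refine ⟨big (.inr true) (.inr false) e (gmat (.inr true) (.inr false) (a + 1)
        (Function.update (fun j' y => .inr (wc τ a (K + i + 1) j' y)) (K + i) (fun y => .inl y))
        (fun r' y => .inr (vc x c b r' y))), fun y => ?_, ?_⟩
  · rw [pl_free_window]
    exact critical e a (K + i) ha (by omega) (by omega) τ x c y
  · simp only [pl_free_window]
    have h1 : ((univ.filter fun p : ι × Equiv.Perm (Fin q) =>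
        u p.1 (M τ x c (xin p.2)) = false ∧ u p.1 (M τ x c (fun _ => true)) = true).card : ℝ) = H τ x c := by
      simp only [H]
      rw [card_filter, Nat.cast_sum, Fintype.sum_prod_type]
      refine sum_congr rfl fun k _ => sum_congr rfl fun s _ => ?_
      cases h2 : u k (M τ x c (xin s)) <;> cases h3 : u k (M τ x c (fun _ => true)) <;> simp [ind]
    rw [← h1] at hω
    exact_mod_cast hω

end Chain

end Pool.Agent.NEGQ
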